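import Pool.Agent.H346.QC.Grow
import Pool.Agent.H346.AT.Higman

set_option autoImplicit false

/-!
# The relations and the subgroups
-/

namespace Pool.Agent.H346.QC

open Pool.Agent.H17R2 FreeGroup Pool.Agent.H346.SC Pool.Agent.H346.AT

section rels

variable {M : Type*} [Group M] {M' : Type*} [Group M']

/-- evaluation of a word -/
def ev (y : Lt → M) (l : List (Lt × Bool)) : M := FreeGroup.lift y (mk l)

lemma ev_eq (y : Lt → M) (l : List (Lt × Bool)) :
    ev y l = (l.map fun x => cond x.2 (y x.1) (y x.1)⁻¹).prod := FreeGroup.lift_mk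

lemma ev_nil (y : Lt → M) : ev y [] = 1 := by rw [ev_eq]; rfl

lemma ev_cons (y : Lt → M) (x : Lt × Bool) (l : List (Lt × Bool)) :
    ev y (x :: l) = cond x.2 (y x.1) (y x.1)⁻¹ * ev y l := by
  rw [ev_eq, ev_eq, List.map_cons, List.prod_cons]

lemma ev_iv (y : Lt → M) (l : List (Lt × Bool)) : ev y (iv l) = (ev y l)⁻¹ := by
  unfold ev
  rw [← _root_.map_inv, FreeGroup.inv_mk]
  rfl

lemma ev_congr {y y' : Lt → M} {l : List (Lt × Bool)} (h : ∀ x ∈ l, y x.1 = y' x.1) :
    ev y l = ev y' l := by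
  rw [ev_eq, ev_eq]
  congr 1
  apply List.map_congr_left
  intro x hx
  rw [h x hx]

lemma map_ev (f : M →* M') (y : Lt → M) (l : List (Lt × Bool)) :
    f (ev y l) = ev (fun x => f (y x)) l := by
  rw [ev_eq, ev_eq, map_list_prod, List.map_map]
  congr 1
  apply List.map_congr_left
  intro x _
  simp only [Function.comp]
  cases x.2
  · simp
  · simp

lemma ev_mem {y : Lt → M} {l : List (Lt × Bool)} (H : Subgroup M) (h : ∀ x ∈ l, y x.1 ∈ H) :
    ev y l ∈ H := by
  rw [ev_eq]
  apply Subgroup.list_prod_mem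
  intro z hz
  rw [List.mem_map] at hz
  obtain ⟨x, hx, rfl⟩ := hz
  cases x.2
  · exact H.inv_mem (h x hx)
  · exact h x hx

lemma bw_letters {n k : ℕ} {x : Lt × Bool} (hx : x ∈ bw n k) : ∃ j, x.1 = .b j := by
  unfold bw at hx
  rw [List.mem_map] at hx
  obtain ⟨c, -, rfl⟩ := hx
  exact ⟨c, rfl⟩

lemma uw_letters {i : Fin 4} {s j : Bool} {x : Lt × Bool} (hx : x ∈ uw i s j) :
    ∃ j, x.1 = .b j := bw_letters hx

lemma vw_letters {i : Fin 4} {x : Lt × Bool} (hx : x ∈ vw i) : ∃ j, x.1 = .b j := bw_letters hx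

/-- a letter or its inverse -/
def sx (y : Lt → M) (i : Fin 4) (s : Bool) : M := cond s (y (.x i)) (y (.x i))⁻¹

lemma sx_not (y : Lt → M) (i : Fin 4) (s : Bool) :
    cond (!s) (y (.x i)) (y (.x i))⁻¹ = (sx y i s)⁻¹ := by
  cases s <;> simp [sx]

/-- the relations -/
structure Rels (y : Lt → M) : Prop where
  h1 : ∀ i s j, sx y i s * y (.b j) * (sx y i s)⁻¹ = ev y (uw i s j)
  h2 : ∀ i, y (.x (i + 1)) * y (.x i) * (y (.x (i + 1)))⁻¹ * (y (.x i))⁻¹ * (y (.x i))⁻¹ = ev y (vw i)
  t0 : ∀ j, y (.b j) ^ 280 = 1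
  t1 : (y (.b false) * y (.b true)) ^ 140 = 1
  t2 : y .w ^ 280 = 1
  t3 : ∀ j, (y (.b j) * y .w) ^ 140 = 1

lemma ev_r1 (y : Lt → M) (i : Fin 4) (s j : Bool) : ev y (root (.r1 i s j)) =
    sx y i s * y (.b j) * (sx y i s)⁻¹ * (ev y (uw i s j))⁻¹ := by
  show ev y (_ :: _ :: _ :: iv (uw i s j)) = _
  rw [ev_cons, ev_cons, ev_cons, ev_iv]
  show sx y i s * (y (.b j) * (cond (!s) (y (.x i)) (y (.x i))⁻¹ * _)) = _
  rw [sx_not]
  group

lemma ev_r2 (y : Lt → M) (i : Fin 4) : ev y (root (.r2 i)) =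
    y (.x (i + 1)) * y (.x i) * (y (.x (i + 1)))⁻¹ * (y (.x i))⁻¹ * (y (.x i))⁻¹ *
      (ev y (vw i))⁻¹ := by
  show ev y (_ :: _ :: _ :: _ :: _ :: iv (vw i)) = _
  rw [ev_cons, ev_cons, ev_cons, ev_cons, ev_cons, ev_iv]
  simp only [cond_true, cond_false]
  group

lemma ev_one (y : Lt → M) (a : Lt) : ev y [(a, true)] = y a := by
  rw [ev_cons, ev_nil]; simp

lemma ev_two (y : Lt → M) (a b : Lt) : ev y [(a, true), (b, true)] = y a * y b := by
  rw [ev_cons, ev_cons, ev_nil]; simp

theorem rels_iff (y : Lt → M) : (∀ r, r ≠ .c → ev y (root r) ^ ex r = 1) ↔ Rels y := by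
  constructor
  · intro h
    refine ⟨?_, ?_, ?_, ?_, ?_, ?_⟩
    · intro i s j
      have := h (.r1 i s j) (by simp)
      rw [ev_r1] at this
      change _ ^ 1 = 1 at this
      rw [pow_one, mul_inv_eq_one] at this
      exact this
    · intro i
      have := h (.r2 i) (by simp)
      rw [ev_r2] at this
      change _ ^ 1 = 1 at this
      rw [pow_one, mul_inv_eq_one] at this
      exact this
    · intro j
      have := h (.t0 j) (by simp)
      change ev y [(Lt.b j, true)] ^ 280 = 1 at this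
      rwa [ev_one] at this
    · have := h .t1 (by simp)
      change ev y [(Lt.b false, true), (Lt.b true, true)] ^ 140 = 1 at this
      rwa [ev_two] at this
    · have := h .t2 (by simp)
      change ev y [(Lt.w, true)] ^ 280 = 1 at this
      rwa [ev_one] at this
    · intro j
      have := h (.t3 j) (by simp)
      change ev y [(Lt.b j, true), (Lt.w, true)] ^ 140 = 1 at this
      rwa [ev_two] at this
  · intro h r hr
    cases r with
    | r1 i s j =>
      rw [ev_r1]
      show _ ^ 1 = 1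
      rw [pow_one, mul_inv_eq_one]
      exact h.h1 i s j
    | r2 i =>
      rw [ev_r2]
      show _ ^ 1 = 1
      rw [pow_one, mul_inv_eq_one]
      exact h.h2 i
    | t0 j =>
      show ev y [(Lt.b j, true)] ^ 280 = 1
      rw [ev_one]; exact h.t0 j
    | t1 =>
      show ev y [(Lt.b false, true), (Lt.b true, true)] ^ 140 = 1
      rw [ev_two]; exact h.t1
    | t2 =>
      show ev y [(Lt.w, true)] ^ 280 = 1
      rw [ev_one]; exact h.t2
    | t3 j =>
      show ev y [(Lt.b j, true), (Lt.w, true)] ^ 140 = 1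
      rw [ev_two]; exact h.t3 j
    | c => exact absurd rfl hr

end rels

lemma ge_rels : Rels ge := by
  rw [← rels_iff]
  intro r hr
  have h1 : ev ge (root r) = ((mk (root r) : FreeGroup Lt) : GG) := lift_gen' sys _
  rw [h1]
  have h2 : ((mk (root r) : FreeGroup Lt) : GG) ^ ex r = ((mk (root r) ^ ex r : FreeGroup Lt) : GG) := rfl
  rw [h2, QuotientGroup.eq_one_iff, N_sys]
  exact Subgroup.subset_normalClosure ⟨r, hr, rfl⟩

section hom

variable {M : Type*} [Group M] {y : Lt → M}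

/-- the homomorphism given by a solution of the relations -/
def toM (h : Rels y) : GG →* M := QuotientGroup.lift sys.toFam.N (FreeGroup.lift y) (by
  rw [N_sys]
  intro g hg
  have h2 : Subgroup.normalClosure {g | ∃ r, r ≠ .c ∧ g = FreeGroup.mk (root r) ^ ex r} ≤
      (FreeGroup.lift y).ker := by
    apply Subgroup.normalClosure_le_normal
    rintro _ ⟨r, hr, rfl⟩
    show FreeGroup.lift y (FreeGroup.mk (root r) ^ ex r) = 1
    rw [map_pow]
    exact (rels_iff y).2 h r hr
  exact h2 hg)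

lemma toM_ge (h : Rels y) (x : Lt) : toM h (ge x) = y x := by
  show FreeGroup.lift y (of x) = y x
  exact lift_apply_of

end hom

/-- the Rips kernel -/
def B : Subgroup GG := Subgroup.closure (Set.range fun j => ge (.b j))

/-- the vertex group which contains the Rips kernel as a normal subgroup -/
def A : Subgroup GG := Subgroup.closure (Set.range (fun i => ge (.x i)) ∪ Set.range fun j => ge (.b j))

lemma B_le_A : B ≤ A := Subgroup.closure_mono Set.subset_union_right

lemma b_mem (j : Bool) : ge (.b j) ∈ B := Subgroup.subset_closure ⟨j, rfl⟩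

lemma x_mem (i : Fin 4) : ge (.x i) ∈ A := Subgroup.subset_closure (Or.inl ⟨i, rfl⟩)

lemma bA_mem (j : Bool) : ge (.b j) ∈ A := B_le_A (b_mem j)

lemma ev_bw_mem {l : List (Lt × Bool)} (h : ∀ x ∈ l, ∃ j, x.1 = .b j) : ev ge l ∈ B := by
  apply ev_mem
  intro x hx
  obtain ⟨j, hj⟩ := h x hx
  rw [hj]
  exact b_mem j

lemma conj_B (i : Fin 4) (s : Bool) : ∀ b ∈ B, sx ge i s * b * (sx ge i s)⁻¹ ∈ B := by
  intro b hb
  have h : B ≤ B.comap (MulAut.conj (sx ge i s)).toMonoidHom := by
    unfold B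
    rw [Subgroup.closure_le]
    rintro _ ⟨j, rfl⟩
    show sx ge i s * ge (.b j) * (sx ge i s)⁻¹ ∈ B
    rw [ge_rels.h1]
    exact ev_bw_mem fun x hx => uw_letters hx
  exact h hb

/-- `B` is normal in `A` -/
lemma A_norm {a b : GG} (ha : a ∈ A) (hb : b ∈ B) : a⁻¹ * b * a ∈ B := by
  have h : A ≤ Subgroup.normalizer (B : Set GG) := by
    unfold A
    rw [Subgroup.closure_le]
    rintro _ (⟨i, rfl⟩ | ⟨j, rfl⟩)
    · show ge (.x i) ∈ Subgroup.normalizer (B : Set GG)
      rw [Subgroup.mem_normalizer_iff]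
      intro b
      constructor
      · intro hb
        exact conj_B i true b hb
      · intro hb
        have := conj_B i false _ hb
        have e : sx ge i false * (ge (.x i) * b * (ge (.x i))⁻¹) * (sx ge i false)⁻¹ = b := by
          simp only [sx, cond_false]; group
        rwa [e] at this
    · exact Subgroup.le_normalizer (b_mem j)
  have h1 := (Subgroup.mem_normalizer_iff.1 ((Subgroup.normalizer (B : Set GG)).inv_mem (h ha)) b).1 hb
  simpa using h1

lemma A_norm' {a b : GG} (ha : a ∈ A) (hb : b ∈ B) : a * b * a⁻¹ ∈ B := by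
  have := A_norm (A.inv_mem ha) hb
  simpa using this

/-- the letters which are killed -/
def yq : Lt → Q
  | .x i => xq i
  | _ => 1

lemma yq_b {l : List (Lt × Bool)} (h : ∀ x ∈ l, ∃ j, x.1 = .b j) : ev yq l = 1 := by
  rw [ev_eq]
  apply List.prod_eq_one
  intro z hz
  rw [List.mem_map] at hz
  obtain ⟨x, hx, rfl⟩ := hz
  obtain ⟨j, hj⟩ := h x hx
  rw [hj]
  cases x.2 <;> simp [yq]

lemma yq_rels : Rels yq where
  h1 i s j := by
    rw [yq_b fun x hx => uw_letters hx]
    simp [yq]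
  h2 i := by
    rw [yq_b fun x hx => vw_letters hx]
    have := xq_rel i
    show xq (i + 1) * xq i * (xq (i + 1))⁻¹ * (xq i)⁻¹ * (xq i)⁻¹ = 1
    rw [this]; group
  t0 j := by simp [yq]
  t1 := by simp [yq]
  t2 := by simp [yq]
  t3 j := by simp [yq]

/-- the projection to Higman's group -/
def piQ : GG →* Q := toM yq_rels

lemma piQ_x (i : Fin 4) : piQ (ge (.x i)) = xq i := toM_ge _ _
lemma piQ_b (j : Bool) : piQ (ge (.b j)) = 1 := toM_ge _ _
lemma piQ_w : piQ (ge .w) = 1 := toM_ge _ _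

lemma piQ_B {b : GG} (hb : b ∈ B) : piQ b = 1 := by
  have h : B ≤ piQ.ker := by
    unfold B
    rw [Subgroup.closure_le]
    rintro _ ⟨j, rfl⟩
    exact piQ_b j
  exact h hb

/-- `B` as a subgroup of `A` -/
abbrev BA : Subgroup A := B.subgroupOf A

instance : BA.Normal := by
  constructor
  rintro ⟨n, hn⟩ hn' ⟨g, hg⟩
  exact A_norm' hg hn'

/-- the generators of the quotient `A ⧸ B` -/
def xab (i : Fin 4) : A ⧸ BA := QuotientGroup.mk' BA ⟨ge (.x i), x_mem i⟩

lemma xab_rel : HRel xab := by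
  intro i
  have h := ge_rels.h2 i
  have h2 : ev ge (vw i) ∈ B := ev_bw_mem fun x hx => vw_letters hx
  rw [← h] at h2
  have h3 : (QuotientGroup.mk' BA) (⟨ge (.x (i + 1)), x_mem _⟩ * ⟨ge (.x i), x_mem _⟩ *
      (⟨ge (.x (i + 1)), x_mem _⟩ : A)⁻¹ * (⟨ge (.x i), x_mem _⟩ : A)⁻¹ *
      (⟨ge (.x i), x_mem _⟩ : A)⁻¹) = 1 := by
    rw [QuotientGroup.mk'_apply, QuotientGroup.eq_one_iff]
    exact h2
  simp only [_root_.map_mul, _root_.map_inv] at h3
  rw [mul_inv_eq_one, mul_inv_eq_iff_eq_mul] at h3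
  exact h3

lemma ker_piQ {a : GG} (ha : a ∈ A) (h : piQ a = 1) : a ∈ B := by
  have key : ∀ g (hg : g ∈ A), (QuotientGroup.mk' BA) ⟨g, hg⟩ = fromQ xab_rel (piQ g) := by
    intro g hg
    unfold A at hg
    induction hg using Subgroup.closure_induction with
    | mem x hx =>
      rcases hx with ⟨i, rfl⟩ | ⟨j, rfl⟩
      · simp only [piQ_x, fromQ_x]
        rfl
      · simp only [piQ_b, _root_.map_one]
        rw [QuotientGroup.mk'_apply, QuotientGroup.eq_one_iff]
        exact b_mem j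
    | one => rw [_root_.map_one, _root_.map_one]; exact _root_.map_one (QuotientGroup.mk' BA)
    | mul x y hx hy ihx ihy =>
      rw [_root_.map_mul, _root_.map_mul, ← ihx, ← ihy, ← _root_.map_mul]
      rfl
    | inv x hx ih =>
      rw [_root_.map_inv, _root_.map_inv, ← ih, ← _root_.map_inv]
      rfl
  have h1 := key a ha
  rw [h, _root_.map_one, QuotientGroup.mk'_apply, QuotientGroup.eq_one_iff] at h1
  exact h1

/-- a subgroup which contains `B` and a finite-index subgroup of `A` contains `A` -/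
theorem A_le_of_finiteIndex (H : Subgroup GG) (hB : B ≤ H) (hf : (H.subgroupOf A).FiniteIndex) :
    A ≤ H := by
  have h1 : ((H.subgroupOf A).map (piQ.comp A.subtype)) = ⊤ := by
    apply Q_finiteIndex
    have hs : Function.Surjective (piQ.comp A.subtype) := by
      rw [← MonoidHom.range_eq_top, eq_top_iff, ← closure_xq, Subgroup.closure_le]
      rintro _ ⟨i, rfl⟩
      exact ⟨⟨ge (.x i), x_mem i⟩, piQ_x i⟩
    refine ⟨fun h0 => hf.index_ne_zero ?_⟩
    have h2 := Subgroup.index_map_dvd (H := H.subgroupOf A) (f := piQ.comp A.subtype) hs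
    rw [h0] at h2
    exact Nat.eq_zero_of_zero_dvd h2
  intro a ha
  have h2 : piQ a ∈ (H.subgroupOf A).map (piQ.comp A.subtype) := by rw [h1]; trivial
  obtain ⟨⟨g, hg⟩, hgH, hge⟩ := h2
  have hge' : piQ g = piQ a := hge
  have hgH' : g ∈ H := hgH
  have h3 : g⁻¹ * a ∈ B := ker_piQ (A.mul_mem (A.inv_mem hg) ha) (by
    rw [_root_.map_mul, _root_.map_inv, hge', inv_mul_cancel])
  have := H.mul_mem hgH' (hB h3)
  rwa [mul_inv_cancel_left] at this

lemma cc_mem : cc ∈ B := B.mul_mem (B.mul_mem (b_mem _) (b_mem _)) (b_mem _)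

/-- the element `c` has infinite order -/
lemma cc_pow {n : ℕ} (hn : cc ^ n = 1) : n = 0 := by
  have := wlen_cc n
  rw [hn, Pool.Agent.H322R3.Hyp.wlen_one] at this
  omega

lemma b_ne : ge (.b false) ≠ 1 ∧ ge (.b true) ≠ 1 ∧ ge (.b false) ≠ ge (.b true) := by
  have t0 := ge_rels.t0
  refine ⟨?_, ?_, ?_⟩
  · intro h
    have := cc_pow (n := 280) (by
      unfold cc
      rw [h, one_mul, one_mul]; exact t0 true)
    omega
  · intro h
    have := cc_pow (n := 280) (by
      unfold cc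
      rw [h, mul_one, ← pow_two, ← pow_mul, mul_comm, pow_mul, t0, one_pow])
    omega
  · intro h
    have := cc_pow (n := 280) (by
      unfold cc
      rw [← h, ← pow_two, ← pow_succ, ← pow_mul, mul_comm, pow_mul, t0, one_pow])
    omega

end Pool.Agent.H346.QC
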