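import Pool.Agent.H346.QC.Stm

set_option autoImplicit false

/-!
# The free product of a group and a cyclic group modulo two powers
-/

namespace Pool.Agent.H346.QC

open Pool.Agent.H17R2 Monoid

/-- what is needed about the quotient -/
structure MillRes {B : Type} [Group B] (b0 b1 : B) : Prop where
  inj : ∀ b : B, (Coprod.inl b : Gam B) ∈ Subgroup.normalClosure (tors b0 b1) → b = 1
  w : ∀ b : B, Coprod.inl b * ww B ∉ Subgroup.normalClosure (tors b0 b1)
  maln : ∀ (p : Gam B) (b b' : B), b ≠ 1 →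
    p * Coprod.inl b * p⁻¹ * Coprod.inl b' ∈ Subgroup.normalClosure (tors b0 b1) →
    ∃ b'' : B, p * Coprod.inl b'' ∈ Subgroup.normalClosure (tors b0 b1)

lemma inl_mul_ww_ne {B : Type} [Group B] (b : B) : Coprod.inl b * ww B ≠ 1 := by
  intro h
  have h1 := congrArg (Coprod.snd : Gam B →* Multiplicative (ZMod 280)) h
  rw [map_mul, Coprod.snd_apply_inl, map_one, one_mul] at h1
  unfold ww at h1
  rw [Coprod.snd_apply_inr] at h1
  exact absurd (ofAdd_eq_one.1 h1) (by decide)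

theorem mill (hF : S_FAM) (hM : S_MALN) {B : Type} [Group B] {b0 b1 : B} (h0 : b0 ≠ 1)
    (h1 : b1 ≠ 1) (h01 : b0 ≠ b1) : MillRes b0 b1 := by
  obtain ⟨V, _, F, hK, hL, hst, hd, hr, ht, hN⟩ := hF B b0 b1 h0 h1 h01
  have hgr : ∀ g ∈ F.N, g ≠ 1 → 196 ≤ F.T.d F.v0 (g • F.v0) := by
    intro g hg hg1
    obtain ⟨x, hx, D, hD, hKD, hdist⟩ := F.greendlinger g hg hg1
    rw [hK, hL x hx] at hKD
    have e1 := F.T.d_nonneg F.v0 (x.1 0)
    have e2 := F.T.d_nonneg (x.1 D) (g • F.v0)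
    omega
  refine ⟨?_, ?_, ?_⟩
  · intro b hb
    by_contra hb1
    rw [← hN] at hb
    have h2 := hgr _ hb (fun h => hb1 (Coprod.inl_injective (by rw [h, map_one])))
    rw [(hst _).2 ⟨b, rfl⟩, F.T.d_self] at h2
    omega
  · intro b hb
    rw [← hN] at hb
    have h2 := hgr _ hb (inl_mul_ww_ne b)
    have h3 := F.smul_d (Coprod.inl b) F.v0 (ww B • F.v0)
    rw [(hst _).2 ⟨b, rfl⟩, smul_smul] at h3
    omega
  · intro p b b' hb hp
    rw [← hN] at hp ⊢
    obtain ⟨n, hn, hnp⟩ := hM _ V F hr ht p (Coprod.inl b) (Coprod.inl b')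
      (fun h => hb (Coprod.inl_injective (by rw [h, map_one]))) ((hst _).2 ⟨b, rfl⟩)
      ((hst _).2 ⟨b', rfl⟩) hp
    obtain ⟨b2, hb2⟩ := (hst _).1 hnp
    refine ⟨b2⁻¹, ?_⟩
    have e : p * Coprod.inl b2⁻¹ = n⁻¹ := by
      rw [map_inv, ← hb2]; group
    rw [e]
    exact F.N.inv_mem hn

end Pool.Agent.H346.QC
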