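import Pool.Agent.H346.QC.Alg
import Pool.Agent.H346.QC.Mill
import Pool.Agent.H346.AT.Push
import Pool.Agent.H346.AT.Ref
import Pool.Agent.H346.AT.Tree

set_option autoImplicit false

/-!
# The amalgam decomposition
-/

namespace Pool.Agent.H346.QC

open Pool.Agent.H17R2 Pool.Agent.H346.SC Pool.Agent.H346.AT Monoid

section cyc

variable {M : Type*} [Group M]

/-- a homomorphism from the cyclic group of order `280` -/
noncomputable def cyc (g : M) (h : g ^ 280 = 1) : Multiplicative (ZMod 280) →* M :=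
  AddMonoidHom.toMultiplicativeLeft (ZMod.lift 280 ⟨zmultiplesHom (Additive M) (Additive.ofMul g), by
    show ((280 : ℕ) : ℤ) • Additive.ofMul g = 0
    rw [natCast_zsmul, ← ofMul_pow, h]; rfl⟩)

lemma cyc_one (g : M) (h : g ^ 280 = 1) : cyc g h (Multiplicative.ofAdd 1) = g := by
  have h1 := ZMod.lift_coe 280 (⟨zmultiplesHom (Additive M) (Additive.ofMul g), by
    show ((280 : ℕ) : ℤ) • Additive.ofMul g = 0
    rw [natCast_zsmul, ← ofMul_pow, h]; rfl⟩ : {f : ℤ →+ Additive M // f (280 : ℕ) = 0}) 1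
  rw [Int.cast_one] at h1
  show Additive.toMul (ZMod.lift 280 (⟨zmultiplesHom (Additive M) (Additive.ofMul g), _⟩ :
    {f : ℤ →+ Additive M // f (280 : ℕ) = 0}) (1 : ZMod 280)) = g
  rw [h1]
  show Additive.toMul ((1 : ℤ) • Additive.ofMul g) = g
  rw [one_zsmul]; rfl

lemma cyc_ext {f g : Multiplicative (ZMod 280) →* M}
    (h : f (Multiplicative.ofAdd 1) = g (Multiplicative.ofAdd 1)) : f = g := by
  have key : ∀ n : ℕ, f (Multiplicative.ofAdd (n : ZMod 280)) = g (Multiplicative.ofAdd (n : ZMod 280)) := by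
    intro n
    have e : Multiplicative.ofAdd (n : ZMod 280) = Multiplicative.ofAdd (1 : ZMod 280) ^ n := by
      rw [← ofAdd_nsmul, nsmul_one]
    rw [e, map_pow, map_pow, h]
  refine MonoidHom.ext fun x => ?_
  have := key (ZMod.val (Multiplicative.toAdd x))
  rw [ZMod.natCast_zmod_val] at this
  exact this

end cyc

/-- the generators of `B` -/
def bB (j : Bool) : B := ⟨ge (.b j), b_mem j⟩

/-- the normal subgroup -/
abbrev NN : Subgroup (Gam B) := Subgroup.normalClosure (tors (bB false) (bB true))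

/-- the second vertex group -/
abbrev PP : Type := Gam B ⧸ NN

/-- the vertex groups -/
def HH : Bool → Type
  | false => A
  | true => PP

instance : ∀ i, Group (HH i)
  | false => inferInstanceAs (Group A)
  | true => inferInstanceAs (Group PP)

/-- the inclusions of the edge group -/
def ph : ∀ i, B →* HH i
  | false => Subgroup.inclusion B_le_A
  | true => (QuotientGroup.mk' NN).comp Coprod.inl

/-- the map from the free product -/
noncomputable def jG : Gam B →* GG := Coprod.lift B.subtype (cyc (ge .w) ge_rels.t2)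

lemma jG_inl (b : B) : jG (Coprod.inl b) = b := by
  unfold jG; rw [Coprod.lift_apply_inl]; rfl

lemma jG_ww : jG (ww B) = ge .w := by
  unfold jG ww; rw [Coprod.lift_apply_inr, cyc_one]

/-- the map from the second vertex group -/
noncomputable def jP : PP →* GG := QuotientGroup.lift NN jG (by
  have h : NN ≤ jG.ker := by
    apply Subgroup.normalClosure_le_normal
    intro x hx
    rcases hx with hx | hx
    · have : jG x = 1 := by
        rw [hx, map_pow, map_mul, jG_inl, jG_ww]
        exact ge_rels.t3 false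
      exact this
    · have : jG x = 1 := by
        rw [hx, map_pow, map_mul, jG_inl, jG_ww]
        exact ge_rels.t3 true
      exact this
  exact h)

lemma jP_mk (g : Gam B) : jP (QuotientGroup.mk' NN g) = jG g := rfl

/-- the maps to the group -/
noncomputable def jj : ∀ i, HH i →* GG
  | false => A.subtype
  | true => jP

lemma hjj (z : B) : jj false (ph false z) = jj true (ph true z) := by
  show (z : GG) = jP (QuotientGroup.mk' NN (Coprod.inl z))
  rw [jP_mk, jG_inl]

/-- the maps to the push-out -/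
def oA : A →* PushoutI ph := PushoutI.of (φ := ph) false

/-- the maps to the push-out -/
def oP : PP →* PushoutI ph := PushoutI.of (φ := ph) true

lemma oA_B (z : B) : oA (Subgroup.inclusion B_le_A z) = oP (QuotientGroup.mk' NN (Coprod.inl z)) :=
  (PushoutI.of_apply_eq_base ph false z).trans (PushoutI.of_apply_eq_base ph true z).symm

/-- the letters in `A` -/
def yA : Lt → A
  | .x i => ⟨ge (.x i), x_mem i⟩
  | .b j => ⟨ge (.b j), bA_mem j⟩
  | .w => 1

/-- the letters in the push-out -/
def thy : Lt → PushoutI ph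
  | .x i => oA ⟨ge (.x i), x_mem i⟩
  | .b j => oA ⟨ge (.b j), bA_mem j⟩
  | .w => oP (QuotientGroup.mk' NN (ww B))

lemma ev_yA {l : List (Lt × Bool)} (h : ∀ x ∈ l, ∃ j, x.1 = .b j) : ((ev yA l : A) : GG) = ev ge l := by
  have h1 := map_ev A.subtype yA l
  have h2 : ev (fun x => A.subtype (yA x)) l = ev ge l := by
    apply ev_congr
    intro x hx
    obtain ⟨j, hj⟩ := h x hx
    rw [hj]; rfl
  rw [← h2]; exact h1

lemma ev_thy {l : List (Lt × Bool)} (h : ∀ x ∈ l, ∃ j, x.1 = .b j) : oA (ev yA l) = ev thy l := by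
  rw [map_ev]
  apply ev_congr
  intro x hx
  obtain ⟨j, hj⟩ := h x hx
  rw [hj]; rfl

lemma thy_rels : Rels thy where
  h1 i s j := by
    have h := ge_rels.h1 i s j
    have h2 : sx yA i s * yA (.b j) * (sx yA i s)⁻¹ = ev yA (uw i s j) := by
      apply Subtype.ext
      rw [ev_yA fun x hx => uw_letters hx, ← h]
      cases s <;> rfl
    rw [← ev_thy fun x hx => uw_letters hx, ← h2, map_mul, map_mul, map_inv]
    cases s
    · simp only [sx, cond_false, map_inv]; rfl
    · rfl
  h2 i := by
    have h := ge_rels.h2 i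
    have h2 : yA (.x (i + 1)) * yA (.x i) * (yA (.x (i + 1)))⁻¹ * (yA (.x i))⁻¹ * (yA (.x i))⁻¹ =
        ev yA (vw i) := by
      apply Subtype.ext
      rw [ev_yA fun x hx => vw_letters hx, ← h]
      rfl
    rw [← ev_thy fun x hx => vw_letters hx, ← h2]
    simp only [map_mul, map_inv]
    rfl
  t0 j := by
    show oA (yA (.b j)) ^ 280 = 1
    rw [← map_pow]
    have h2 : yA (.b j) ^ 280 = 1 := Subtype.ext (ge_rels.t0 j)
    rw [h2, map_one]
  t1 := by
    show (oA (yA (.b false)) * oA (yA (.b true))) ^ 140 = 1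
    rw [← map_mul, ← map_pow]
    have h2 : (yA (.b false) * yA (.b true)) ^ 140 = 1 := Subtype.ext ge_rels.t1
    rw [h2, map_one]
  t2 := by
    show oP (QuotientGroup.mk' NN (ww B)) ^ 280 = 1
    rw [← map_pow, ← map_pow]
    have h2 : ww B ^ 280 = 1 := by
      unfold ww
      rw [← map_pow, ← ofAdd_nsmul]
      have : (280 : ℕ) • (1 : ZMod 280) = 0 := by
        rw [nsmul_one]
        exact ZMod.natCast_self 280
      rw [this, ofAdd_zero, map_one]
    rw [h2, map_one, map_one]
  t3 j := by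
    have h1 : thy (.b j) = oP (QuotientGroup.mk' NN (Coprod.inl (bB j))) := oA_B (bB j)
    rw [h1]
    show (_ * oP (QuotientGroup.mk' NN (ww B))) ^ 140 = 1
    rw [← map_mul, ← map_mul, ← map_pow, ← map_pow]
    have h2 : QuotientGroup.mk' NN ((Coprod.inl (bB j) * ww B) ^ 140) = 1 := by
      rw [QuotientGroup.mk'_apply, QuotientGroup.eq_one_iff]
      apply Subgroup.subset_normalClosure
      cases j
      · exact Set.mem_insert _ _
      · exact Set.mem_insert_of_mem _ (Set.mem_singleton _)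
    rw [h2, map_one]

/-- the map to the push-out -/
def th : GG →* PushoutI ph := toM thy_rels

lemma th_A : ∀ a : A, th a = oA a := by
  rintro ⟨a, ha⟩
  have key : ∀ g (hg : g ∈ A), th g = oA ⟨g, hg⟩ := by
    intro g hg
    unfold A at hg
    induction hg using Subgroup.closure_induction with
    | mem x hx =>
      rcases hx with ⟨i, rfl⟩ | ⟨j, rfl⟩
      · exact toM_ge thy_rels _
      · exact toM_ge thy_rels _
    | one => rw [map_one]; exact (map_one oA).symm
    | mul x y hx hy ihx ihy =>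
      rw [map_mul, ihx, ihy, ← map_mul]
      rfl
    | inv x hx ih =>
      rw [map_inv, ih, ← map_inv]
      rfl
  exact key a ha

lemma th_P : ∀ p : PP, th (jP p) = oP p := by
  have key : th.comp jG = oP.comp (QuotientGroup.mk' NN) := by
    apply Coprod.hom_ext
    · ext z
      show th (jG (Coprod.inl z)) = oP (QuotientGroup.mk' NN (Coprod.inl z))
      rw [jG_inl, ← oA_B]
      exact th_A ⟨z, B_le_A z.2⟩
    · apply cyc_ext
      show th (jG (ww B)) = oP (QuotientGroup.mk' NN (ww B))
      rw [jG_ww]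
      exact toM_ge thy_rels _
  intro p
  obtain ⟨g, rfl⟩ := QuotientGroup.mk'_surjective NN p
  exact DFunLike.congr_fun key g

lemma hth : ∀ i (h : HH i), th (jj i h) = PushoutI.of (φ := ph) i h
  | false, h => th_A h
  | true, h => th_P h

/-- the vertex groups as subgroups -/
noncomputable def CC : Bool → Subgroup GG := fun i => (jj i).range

lemma CC_false : CC false = A := by
  show A.subtype.range = A
  exact A.range_subtype

lemma w_mem : ge .w ∈ CC true := ⟨QuotientGroup.mk' NN (ww B), jG_ww⟩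

lemma B_le_true : B ≤ CC true := fun b hb =>
  ⟨QuotientGroup.mk' NN (Coprod.inl ⟨b, hb⟩), jG_inl ⟨b, hb⟩⟩

lemma CC_top : CC false ⊔ CC true = ⊤ := by
  rw [eq_top_iff, ← closure_ge, Subgroup.closure_le]
  rintro _ ⟨x, rfl⟩
  cases x with
  | x i => exact (le_sup_left : CC false ≤ _) (by rw [CC_false]; exact x_mem i)
  | b j => exact (le_sup_left : CC false ≤ _) (by rw [CC_false]; exact bA_mem j)
  | w => exact (le_sup_right : CC true ≤ _) w_mem

section res

variable (hm : MillRes (bB false) (bB true))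
include hm

lemma hph : ∀ i, Function.Injective (ph i)
  | false => Subgroup.inclusion_injective B_le_A
  | true => by
    rw [injective_iff_map_eq_one]
    intro b hb
    have hb' : QuotientGroup.mk' NN (Coprod.inl b) = 1 := hb
    rw [QuotientGroup.mk'_apply, QuotientGroup.eq_one_iff] at hb'
    exact hm.inj b hb'

theorem CC_nf : NF CC := nf_push ph jj hjj th hth (hph hm)

lemma CC_inter {x : GG} (h0 : x ∈ A) (h1 : x ∈ CC true) : x ∈ B := by
  rw [← CC_false] at h0
  obtain ⟨z, hz⟩ := inter_push ph jj th hth (hph hm) h0 h1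
  rw [hz]
  exact z.2

lemma w_not_mem : ge .w ∉ A := by
  intro h
  have h1 := CC_inter hm h w_mem
  have h2 : jP (QuotientGroup.mk' NN (Coprod.inl (⟨ge .w, h1⟩⁻¹ : B) * ww B)) = 1 := by
    rw [jP_mk, map_mul, jG_inl, jG_ww]
    show (ge .w)⁻¹ * ge .w = 1
    exact inv_mul_cancel _
  have h3 := congrArg th h2
  rw [th_P, map_one] at h3
  have h4 : QuotientGroup.mk' NN (Coprod.inl (⟨ge .w, h1⟩⁻¹ : B) * ww B) = (1 : PP) :=
    PushoutI.of_injective (hph hm) true (h3.trans (map_one oP).symm)
  rw [QuotientGroup.mk'_apply, QuotientGroup.eq_one_iff] at h4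
  exact hm.w _ h4

/-- `B` is malnormal in the second vertex group -/
lemma maln {p b : GG} (hp : p ∈ CC true) (hb : b ∈ B) (hb1 : b ≠ 1) (h : p * b * p⁻¹ ∈ B) :
    p ∈ B := by
  obtain ⟨q, rfl⟩ := hp
  change PP at q
  obtain ⟨g, rfl⟩ := QuotientGroup.mk'_surjective NN q
  change jG g * b * (jG g)⁻¹ ∈ B at h
  have h2 : jP (QuotientGroup.mk' NN (g * Coprod.inl (⟨b, hb⟩ : B) * g⁻¹ *
      Coprod.inl (⟨_, h⟩⁻¹ : B))) = 1 := by
    rw [jP_mk, map_mul, map_mul, map_mul, jG_inl, jG_inl, map_inv]
    show jG g * b * (jG g)⁻¹ * (jG g * b * (jG g)⁻¹)⁻¹ = 1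
    exact mul_inv_cancel _
  have h3 := congrArg th h2
  rw [th_P, map_one] at h3
  have h4 : QuotientGroup.mk' NN (g * Coprod.inl (⟨b, hb⟩ : B) * g⁻¹ *
      Coprod.inl (⟨_, h⟩⁻¹ : B)) = (1 : PP) :=
    PushoutI.of_injective (hph hm) true (h3.trans (map_one oP).symm)
  rw [QuotientGroup.mk'_apply, QuotientGroup.eq_one_iff] at h4
  obtain ⟨b'', hb''⟩ := hm.maln g ⟨b, hb⟩ _ (fun h => hb1 (congrArg Subtype.val h)) h4
  have h5 : jP (QuotientGroup.mk' NN (g * Coprod.inl b'')) = 1 := by
    rw [QuotientGroup.mk'_apply, (QuotientGroup.eq_one_iff _).2 hb'', map_one]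
  rw [jP_mk, map_mul, jG_inl] at h5
  have h6 : jG g = (b'' : GG)⁻¹ := eq_inv_of_mul_eq_one_left h5
  show jG g ∈ B
  rw [h6]
  exact B.inv_mem b''.2

lemma CC_tree : (bsGraph CC).IsTree := bs_isTree (CC_nf hm) CC_top

/-- an element fixing two edges at a vertex of the second kind is trivial -/
lemma fix_three {g : GG} {v u v' : BV CC} (hu : u.1 = true) (a1 : (bsGraph CC).Adj v u)
    (a2 : (bsGraph CC).Adj v' u) (n : v ≠ v') (f1 : bsAct CC g v = v) (f2 : bsAct CC g u = u)
    (f3 : bsAct CC g v' = v') : g = 1 := by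
  obtain ⟨k, e1, e2⟩ := adj_cases a1 (Or.inr hu)
  obtain ⟨l, e3, e4⟩ := adj_cases a2 (Or.inr hu)
  subst e1
  subst e3
  rw [e2] at e4 f2
  rw [bsAct_fix] at f1 f2 f3
  have f4 : l⁻¹ * g * l ∈ CC true := by
    rw [← bsAct_fix, ← e4, bsAct_fix]; exact f2
  rw [bv_eq] at e4
  rw [CC_false] at f1 f3
  have hx := CC_inter hm f1 f2
  have hy := CC_inter hm f3 f4
  by_contra hg
  apply n
  rw [bv_eq, CC_false]
  apply B_le_A
  have h5 := maln hm (p := (k⁻¹ * l)⁻¹) (b := k⁻¹ * g * k) ((CC true).inv_mem e4) hx (by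
    intro h
    apply hg
    have e : g = k * (k⁻¹ * g * k) * k⁻¹ := by group
    rw [e, h]; group) (by
    have e : (k⁻¹ * l)⁻¹ * (k⁻¹ * g * k) * (k⁻¹ * l)⁻¹⁻¹ = l⁻¹ * g * l := by group
    rw [e]; exact hy)
  have := B.inv_mem h5
  rwa [inv_inv] at this

/-- the action is acylindrical -/
theorem CC_acyl {u v : BV CC} (p : (bsGraph CC).Walk u v) (hp : p.IsPath)
    (hl : 3 ≤ p.length) (g : GG) (hg : ∀ x ∈ p.support, bsAct CC g x = x) : g = 1 := by
  have hf : ∀ k, bsAct CC g (p.getVert k) = p.getVert k :=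
    fun k => hg _ (p.getVert_mem_support k)
  have ha : ∀ k, k < 3 → (bsGraph CC).Adj (p.getVert k) (p.getVert (k + 1)) :=
    fun k hk => p.adj_getVert_succ (by omega)
  have hn : ∀ k l, k ≤ 3 → l ≤ 3 → k ≠ l → p.getVert k ≠ p.getVert l := by
    intro k l hk hl' hkl h
    exact hkl (hp.getVert_injOn (by simp; omega) (by simp; omega) h)
  have hflip : ∀ k, k < 3 → (p.getVert (k + 1)).1 = !(p.getVert k).1 := by
    intro k hk
    obtain ⟨i, x, e1, e2⟩ := ha k hk
    rw [e1, e2]; rfl
  by_cases h0 : (p.getVert 0).1 = false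
  · refine fix_three hm (v := p.getVert 0) (u := p.getVert 1) (v' := p.getVert 2) ?_
      (ha 0 (by omega)) (ha 1 (by omega)).symm (hn _ _ (by omega) (by omega) (by omega))
      (hf _) (hf _) (hf _)
    rw [hflip 0 (by omega), h0]; rfl
  · refine fix_three hm (v := p.getVert 1) (u := p.getVert 2) (v' := p.getVert 3) ?_
      (ha 1 (by omega)) (ha 2 (by omega)).symm (hn _ _ (by omega) (by omega) (by omega))
      (hf _) (hf _) (hf _)
    rw [hflip 1 (by omega), hflip 0 (by omega)]
    revert h0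
    cases (p.getVert 0).1 <;> simp

end res

end Pool.Agent.H346.QC
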