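import Pool.Agent.H346.AT.Tree
import Pool.Agent.H346.AT.Ref

set_option autoImplicit false

/-!
# Axes in Bass-Serre trees
-/

namespace Pool.Agent.H346.QC

open SimpleGraph Pool.Agent.H346.AT

section geod

universe u
variable {V : Type u} {T : SimpleGraph V}

/-- locally injective bi-infinite paths in trees are geodesic -/
lemma geod (hT : T.IsTree) (γ : ℤ → V) (ha : ∀ k, T.Adj (γ k) (γ (k + 1)))
    (hn : ∀ k, γ k ≠ γ (k + 2)) (i j : ℤ) : T.dist (γ i) (γ j) = (i - j).natAbs := by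
  have key : ∀ (a : ℤ) (n : ℕ), T.dist (γ a) (γ (a + n)) = n ∧
      T.dist (γ a) (γ (a + n + 1)) = n + 1 := by
    intro a n
    induction n with
    | zero =>
      simp only [Nat.cast_zero, add_zero, dist_self, zero_add, true_and]
      exact dist_eq_one_iff_adj.2 (ha a)
    | succ n ih =>
      obtain ⟨h1, h2⟩ := ih
      have e1 : a + ((n + 1 : ℕ) : ℤ) = a + n + 1 := by push_cast; ring
      rw [e1]
      refine ⟨h2, ?_⟩
      have e2 : a + (n : ℤ) + 1 + 1 = a + n + 2 := by ring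
      have h3 := adj_dist hT (ha (a + n + 1)) (γ a)
      rw [T.dist_comm (u := γ (a + n + 1)), T.dist_comm (u := γ (a + n + 1 + 1))] at h3
      rcases h3 with h3 | h3
      · exfalso
        apply hn (a + n)
        rw [← e2]
        refine closer_unique hT (ha (a + n)).symm (ha (a + n + 1)) (w := γ a) ?_ ?_
        · rw [T.dist_comm, T.dist_comm (u := γ (a + n + 1))]; omega
        · rw [T.dist_comm, T.dist_comm (u := γ (a + n + 1))]; omega
      · rw [h3, h2]
  rcases le_total i j with h | h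
  · obtain ⟨n, hn⟩ := Int.eq_ofNat_of_zero_le (sub_nonneg.2 h)
    have e : j = i + n := by omega
    rw [e, (key i n).1]; omega
  · obtain ⟨n, hn⟩ := Int.eq_ofNat_of_zero_le (sub_nonneg.2 h)
    have e : i = j + n := by omega
    rw [e, T.dist_comm, (key j n).1]; omega

/-- two geodesic lines which leave a common point in different directions have no other common
point -/
lemma inter_lines (hT : T.IsTree) (γ η : ℤ → V) (h1 : ∀ i j, T.dist (γ i) (γ j) = (i - j).natAbs)
    (h2 : ∀ i j, T.dist (η i) (η j) = (i - j).natAbs) (h0 : γ 0 = η 0)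
    (hne : ∀ s t : ℤ, (s = 1 ∨ s = -1) → (t = 1 ∨ t = -1) → γ s ≠ η t) :
    Set.range γ ∩ Set.range η ⊆ {γ 0} := by
  rintro p ⟨⟨i, hi⟩, ⟨j, hj⟩⟩
  have d1 := h1 0 i
  have d2 := h2 0 j
  rw [hi] at d1
  rw [hj, ← h0] at d2
  by_contra hcon
  have hi0 : i ≠ 0 := by
    rintro rfl
    exact hcon hi.symm
  have hj0 : j ≠ 0 := by
    rintro rfl
    rw [d2] at d1
    omega
  obtain ⟨s, hs, hs'⟩ : ∃ s : ℤ, (s = 1 ∨ s = -1) ∧ (s - i).natAbs < (0 - i).natAbs := by
    rcases lt_or_gt_of_ne hi0 with h | h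
    · exact ⟨-1, Or.inr rfl, by omega⟩
    · exact ⟨1, Or.inl rfl, by omega⟩
  obtain ⟨t, ht, ht'⟩ : ∃ t : ℤ, (t = 1 ∨ t = -1) ∧ (t - j).natAbs < (0 - j).natAbs := by
    rcases lt_or_gt_of_ne hj0 with h | h
    · exact ⟨-1, Or.inr rfl, by omega⟩
    · exact ⟨1, Or.inl rfl, by omega⟩
  apply hne s t hs ht
  have a1 : T.Adj (γ 0) (γ s) := by
    rw [← dist_eq_one_iff_adj, h1]; omega
  have a2 : T.Adj (γ 0) (η t) := by
    rw [h0, ← dist_eq_one_iff_adj, h2]; omega
  refine closer_unique hT a1 a2 (w := p) ?_ ?_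
  · rw [d1, ← hi, h1]; exact hs'
  · rw [d2, ← hj, h2]; exact ht'

end geod

section axis

variable {G : Type*} [Group G] (D : Bool → Subgroup G)

/-- the axis of `a w` -/
noncomputable def ax (a w : G) (k : ℤ) : BV D :=
  if k % 2 = 0 then bv D false ((a * w) ^ (k / 2)) else bv D true ((a * w) ^ (k / 2) * a)

lemma ax_even (a w : G) (n : ℤ) : ax D a w (2 * n) = bv D false ((a * w) ^ n) := by
  unfold ax
  rw [if_pos (by omega)]
  congr 2; omega

lemma ax_odd (a w : G) (n : ℤ) : ax D a w (2 * n + 1) = bv D true ((a * w) ^ n * a) := by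
  unfold ax
  rw [if_neg (by omega)]
  congr 3; omega

lemma ax_act (a w : G) (k : ℤ) : bsAct D (a * w) (ax D a w k) = ax D a w (k + 2) := by
  rcases Int.even_or_odd' k with ⟨n, rfl | rfl⟩
  · rw [show 2 * n + 2 = 2 * (n + 1) by ring, ax_even, ax_even, bsAct_bv, ← zpow_one_add, add_comm]
  · rw [show 2 * n + 1 + 2 = 2 * (n + 1) + 1 by ring, ax_odd, ax_odd, bsAct_bv, ← mul_assoc,
      ← zpow_one_add, add_comm 1 n]

variable {D} {a w : G} (ha : a ∈ D false) (ha' : a ∉ D true) (hw : w ∈ D true) (hw' : w ∉ D false)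

include ha hw in
lemma ax_adj (k : ℤ) : (bsGraph D).Adj (ax D a w k) (ax D a w (k + 1)) := by
  rcases Int.even_or_odd' k with ⟨n, rfl | rfl⟩
  · rw [ax_odd, ax_even]
    have e : bv D false ((a * w) ^ n) = bv D false ((a * w) ^ n * a) := by
      rw [bv_eq]; simpa using ha
    rw [e]
    exact bs_adj false _
  · rw [show 2 * n + 1 + 1 = 2 * (n + 1) by ring, ax_odd, ax_even]
    have e : bv D true ((a * w) ^ n * a) = bv D true ((a * w) ^ (n + 1)) := by
      rw [bv_eq, zpow_add_one]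
      have e2 : ((a * w) ^ n * a)⁻¹ * ((a * w) ^ n * (a * w)) = w := by group
      rw [e2]; exact hw
    rw [e]
    exact bs_adj true _

include ha ha' hw hw' in
lemma ax_ne (k : ℤ) : ax D a w k ≠ ax D a w (k + 2) := by
  rcases Int.even_or_odd' k with ⟨n, rfl | rfl⟩
  · rw [show 2 * n + 2 = 2 * (n + 1) by ring, ax_even, ax_even, Ne, bv_eq, zpow_add_one]
    intro h
    have e2 : ((a * w) ^ n)⁻¹ * ((a * w) ^ n * (a * w)) = a * w := by group
    rw [e2] at h
    exact hw' (((D false).mul_mem_cancel_left ha).1 h)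
  · rw [show 2 * n + 1 + 2 = 2 * (n + 1) + 1 by ring, ax_odd, ax_odd, Ne, bv_eq, zpow_add_one]
    intro h
    have e2 : ((a * w) ^ n * a)⁻¹ * ((a * w) ^ n * (a * w) * a) = w * a := by group
    rw [e2] at h
    exact ha' (((D true).mul_mem_cancel_left hw).1 h)

include ha ha' hw hw' in
lemma ax_geod (hT : (bsGraph D).IsTree) (i j : ℤ) :
    (bsGraph D).dist (ax D a w i) (ax D a w j) = (i - j).natAbs :=
  geod hT _ (ax_adj ha hw) (ax_ne ha ha' hw hw') i j

/-- two axes with one common vertex -/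
theorem two_axes (hT : (bsGraph D).IsTree) (ha : a ∈ D false) (ha' : a ∉ D true) (hw : w ∈ D true)
    (hw' : w ∉ D false) {c : G} (hc : c ∈ D false) (h1 : c ∉ D true) (h2 : c * a ∉ D true)
    (h3 : a⁻¹ * c ∉ D true) (h4 : a⁻¹ * c * a ∉ D true) :
    ∃ (g h : G) (γ η : ℤ → BV D),
      ((∀ i j, (bsGraph D).dist (γ i) (γ j) = (i - j).natAbs) ∧ ∀ i, bsAct D g (γ i) = γ (i + 2)) ∧
      ((∀ i j, (bsGraph D).dist (η i) (η j) = (i - j).natAbs) ∧ ∀ i, bsAct D h (η i) = η (i + 2)) ∧
      (Set.range γ ∩ Set.range η).Finite := by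
  have hg := ax_geod ha ha' hw hw' hT
  have hg' : ∀ i j, (bsGraph D).dist (bsAct D c (ax D a w i)) (bsAct D c (ax D a w j)) =
      (i - j).natAbs := by
    intro i j
    rw [dist_act (bsAct D) bs_adj_act hT, hg]
  refine ⟨a * w, c * (a * w) * c⁻¹, ax D a w, fun k => bsAct D c (ax D a w k),
    ⟨hg, ax_act D a w⟩, ⟨hg', ?_⟩, ?_⟩
  · intro i
    show bsAct D (c * (a * w) * c⁻¹) (bsAct D c (ax D a w i)) = bsAct D c (ax D a w (i + 2))
    rw [← ax_act D a w i, ← Equiv.Perm.mul_apply, ← Equiv.Perm.mul_apply, ← map_mul, ← map_mul,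
      inv_mul_cancel_right]
  · refine (Set.finite_singleton (ax D a w 0)).subset (inter_lines hT _ _ hg hg' ?_ ?_)
    · have e0 : ax D a w 0 = bv D false 1 := by
        have := ax_even D a w 0
        rw [mul_zero, zpow_zero] at this
        exact this
      show ax D a w 0 = bsAct D c (ax D a w 0)
      rw [e0, bsAct_bv, bv_eq]
      simpa using hc
    · have e1 : ax D a w 1 = bv D true a := by
        have := ax_odd D a w 0
        rw [mul_zero, zero_add, zpow_zero, one_mul] at this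
        exact this
      have e2 : ax D a w (-1) = bv D true 1 := by
        have := ax_odd D a w (-1)
        rw [show 2 * (-1 : ℤ) + 1 = -1 by ring] at this
        rw [this, bv_eq]
        have e3 : ((a * w) ^ (-1 : ℤ) * a)⁻¹ * 1 = a⁻¹ * (a * w) := by
          rw [zpow_neg_one]; group
        rw [e3]
        simpa using hw
      rintro s t (rfl | rfl) (rfl | rfl)
      · show ax D a w 1 ≠ bsAct D c (ax D a w 1)
        rw [e1, bsAct_bv, Ne, bv_eq]
        rwa [← mul_assoc]
      · show ax D a w 1 ≠ bsAct D c (ax D a w (-1))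
        rw [e1, e2, bsAct_bv, Ne, bv_eq, mul_one]
        exact h3
      · show ax D a w (-1) ≠ bsAct D c (ax D a w 1)
        rw [e1, e2, bsAct_bv, Ne, bv_eq, inv_one, one_mul]
        exact h2
      · show ax D a w (-1) ≠ bsAct D c (ax D a w (-1))
        rw [e2, bsAct_bv, Ne, bv_eq, inv_one, one_mul, mul_one]
        exact h1

end axis

end Pool.Agent.H346.QC
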