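import Pool.Agent.H346.QC.Defs

set_option autoImplicit false

/-!
# The check of the windows
-/

namespace Pool.Agent.H346.QC

theorem bld_chk : bld4 (pd.allO.map pd.pkn) .lf = true := by decide +kernel

end Pool.Agent.H346.QC
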