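import Pool.Agent.H346.QC.Win

set_option autoImplicit false

/-!
# The presentation

Letters: `x i` (`i : Fin 4`), `b j` (`j : Bool`) and `w`. The relators are
`x i ^ (±1) b j x i ^ (∓1) U⁻¹`, `x (i+1) x i x (i+1)⁻¹ (x i)⁻² V⁻¹` with positive words `U`, `V` in
the letters `b`, and `(b j) ^ 280`, `(b 0 b 1) ^ 140`, `w ^ 280`, `(b j w) ^ 140`; all of them
have length `280`.
-/

namespace Pool.Agent.H346.QC

/-- the generators -/
inductive Lt
  | x (i : Fin 4)
  | b (j : Bool)
  | w
  deriving DecidableEq

/-- binary digits -/
def bitsAux : ℕ → ℕ → List Bool
  | 0, _ => []
  | k + 1, n => (n % 2 == 1) :: bitsAux k (n / 2)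

/-- twenty binary words -/
def wnum : ℕ → ℕ
  | 0 => 121236327427847375899709989430857676299451210658870999154368014973855047940379799708
  | 1 => 213676121573408872240312984765049650771635436683284560862049049798978122204989495848
  | 2 => 149739433895099489136598712587086734380772500160493219270334426319617387168186447630
  | 3 => 158041365158630217436122255699611318330903409404289232163633937923274038229084010773
  | 4 => 83704149858488639385536229887965645029189355497856199578843528674710989649155251732
  | 5 => 155728176875183368170758945358400000270547185722229256782396318720169733552816309076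
  | 6 => 232498538540727833122096148455943078257308953794990466992665399767862349935992943516
  | 7 => 26195213379516166498318074460654186403882044622169858658208665325869483356777215801
  | 8 => 79610439478125387681951343032765663104800537950653142694199972400795634443151965653
  | 9 => 170862511030055033849194524603129623650878223506381069780990954690591116445373469494
  | 10 => 87362574758254664170819012090425859569906755135256755050556192858224852525827627020
  | 11 => 35459223281510591382438000226769900006643659106857272748838483634475078891790665658
  | 12 => 216948576407005903670699818860356390312261625631910008104946929381086080768616166743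
  | 13 => 53487110067038036965119290137218380726564781380931861821687077597469108304181245948
  | 14 => 197620505829036521498410649473835955510747131607696292355560717633269135852224478154
  | 15 => 91764527787551356277319902891325888217516162867815080708090628065018561492751563283
  | 16 => 46856195648777365942162032600522913144236470507776972437283960326840861338363991836
  | 17 => 15354845133382453486186574641037094723275637689293292380353527384167649485424954718
  | 18 => 26239070876889880360210628918750573580220539229751168380474766372773529144663647962
  | _ => 25313259835835833240334366889752004775229013015202038989040776069676585049620843424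

/-- a positive word in the letters `b` -/
def bw (n k : ℕ) : List (Lt × Bool) := (bitsAux n (wnum k)).map fun c => (Lt.b c, true)

/-- numbering of the relators of the first type -/
def ixr (i : Fin 4) (s j : Bool) : ℕ := 4 * i.val + cond s (cond j 3 2) (cond j 1 0)

/-- the words `U` -/
def uw (i : Fin 4) (s j : Bool) : List (Lt × Bool) := bw 277 (ixr i s j)

/-- the words `V` -/
def vw (i : Fin 4) : List (Lt × Bool) := bw 275 (16 + i.val)

/-- names of the relators; the last name is for the word `b 0 b 0 b 1`, which is no relator -/
inductive Rl
  | r1 (i : Fin 4) (s j : Bool)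
  | r2 (i : Fin 4)
  | t0 (j : Bool)
  | t1
  | t2
  | t3 (j : Bool)
  | c
  deriving DecidableEq

/-- the roots -/
def root : Rl → List (Lt × Bool)
  | .r1 i s j => (Lt.x i, s) :: (Lt.b j, true) :: (Lt.x i, !s) :: iv (uw i s j)
  | .r2 i => (Lt.x (i + 1), true) :: (Lt.x i, true) :: (Lt.x (i + 1), false) :: (Lt.x i, false) ::
      (Lt.x i, false) :: iv (vw i)
  | .t0 j => [(Lt.b j, true)]
  | .t1 => [(Lt.b false, true), (Lt.b true, true)]
  | .t2 => [(Lt.w, true)]
  | .t3 j => [(Lt.b j, true), (Lt.w, true)]
  | .c => [(Lt.b false, true), (Lt.b false, true), (Lt.b true, true)]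

/-- number of copies for the check -/
def ncp : Rl → ℕ
  | .r1 _ _ _ => 2
  | .r2 _ => 2
  | _ => 16

/-- the exponents of the relators -/
def ex : Rl → ℕ
  | .r1 _ _ _ => 1
  | .r2 _ => 1
  | .t0 _ => 280
  | .t1 => 140
  | .t2 => 280
  | .t3 _ => 140
  | .c => 0

/-- the code of a letter -/
def dgl : Lt × Bool → ℕ
  | (.x i, s) => 1 + 2 * i.val + cond s 1 0
  | (.b j, s) => 9 + cond j (cond s 0 1) (cond s 2 3)
  | (.w, s) => 13 + cond s 0 1

/-- all the names -/
def nms : List Rl :=
  ([0, 1, 2, 3].flatMap fun i => [Rl.r1 i false false, Rl.r1 i false true, Rl.r1 i true false,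
    Rl.r1 i true true, Rl.r2 i]) ++
  [Rl.t0 false, Rl.t0 true, Rl.t1, Rl.t2, Rl.t3 false, Rl.t3 true, Rl.c]

/-- the data of the presentation -/
def pd : PD Lt Rl where
  x0 := (Lt.w, true)
  rt := root
  nc := ncp
  dg := dgl
  names := nms

end Pool.Agent.H346.QC
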