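import Pool.Agent.H346.QC.Sys

set_option autoImplicit false

/-!
# The powers of `c = b 0 b 0 b 1` are geodesic
-/

namespace Pool.Agent.H346.QC

open Pool.Agent.H17R2 FreeGroup Pool.Agent.H346.SC Pool.Agent.H346.NL

section gen

variable {α : Type} [DecidableEq α]

lemma bt_take' {g v : FreeGroup α} (h : Bt (fTree α) 1 v g) :
    v = mk (g.toWord.take (norm v)) := by
  have h1 : fd 1 v + fd v g = fd 1 g := h
  rw [fd_one, fd_one] at h1
  have h2 : norm v + norm (v⁻¹ * g) = norm g := by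
    unfold fd at h1
    exact_mod_cast h1
  have h3 := FreeGroup.toWord_mul_sublist v (v⁻¹ * g)
  rw [mul_inv_cancel_left] at h3
  have h4 := h3.eq_of_length (by
    rw [List.length_append]
    exact h2.symm)
  rw [h4]
  show v = mk (List.take v.toWord.length _)
  rw [List.take_left, mk_toWord]

variable (S : Words α)

/-- the points of a relator line on the geodesic from `1` to `g` -/
lemma pr_label' (x : S.toFam.fam) (g : FreeGroup α)
    (hlt : S.toFam.T.pr x.1.1 1 < S.toFam.T.pr x.1.1 g) : ∃ m : ℕ, ∀ j : ℕ,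
      (j : ℤ) ≤ S.toFam.T.pr x.1.1 g - S.toFam.T.pr x.1.1 1 →
        m + j ≤ g.toWord.length ∧
        x.1.1 (S.toFam.T.pr x.1.1 1 + j) = mk (g.toWord.take (m + j)) := by
  have hl := S.toFam.line _ x.2
  have hd := hl.d_eq 1 g hlt.ne
  set a := S.toFam.T.pr x.1.1 1 with ha
  set b := S.toFam.T.pr x.1.1 g with hb
  refine ⟨norm (x.1.1 a), ?_⟩
  intro j hj
  have e1 := hl.pr_spec 1 (a + j)
  have e2 := hl.pr_spec g (a + j)
  rw [← ha, add_sub_cancel_left, abs_of_nonneg (by positivity)] at e1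
  rw [← hb, abs_sub_comm, abs_of_nonneg (by omega : 0 ≤ b - (a + j))] at e2
  rw [abs_sub_comm, abs_of_nonneg (by omega : 0 ≤ b - a)] at hd
  have c1 := S.toFam.T.d_comm g (x.1.1 b)
  have c2 := S.toFam.T.d_comm g (x.1.1 (a + j))
  have hbt : Bt (fTree α) 1 (x.1.1 (a + j)) g := by
    show S.toFam.T.d 1 _ + S.toFam.T.d _ g = S.toFam.T.d 1 g
    omega
  have hn : norm (x.1.1 (a + j)) = norm (x.1.1 a) + j := by
    have f1 : S.toFam.T.d 1 (x.1.1 (a + j)) = norm (x.1.1 (a + j)) := fd_one _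
    have f2 : S.toFam.T.d 1 (x.1.1 a) = norm (x.1.1 a) := fd_one _
    omega
  have h3 := bt_take' hbt
  rw [hn] at h3
  refine ⟨?_, h3⟩
  have f1 : S.toFam.T.d 1 (x.1.1 (a + j)) = norm (x.1.1 (a + j)) := fd_one _
  have f2 : S.toFam.T.d 1 g = norm g := fd_one _
  have f3 := S.toFam.T.d_nonneg (x.1.1 (a + j)) g
  have f4 : S.toFam.T.d 1 (x.1.1 (a + j)) + S.toFam.T.d (x.1.1 (a + j)) g = S.toFam.T.d 1 g := hbt
  have f5 : norm g = g.toWord.length := rfl
  omega

lemma rev_pr' (x : S.toFam.fam) (p : FreeGroup α) :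
    S.toFam.T.pr (fun k => x.1.1 (-k)) p = - S.toFam.T.pr x.1.1 p := by
  have hl := S.toFam.line _ x.2
  apply hl.rev.pr_eq
  intro k
  have h1 := hl.pr_spec p (-k)
  have h2 := abs_nonneg (-k - S.toFam.T.pr x.1.1 p)
  show S.toFam.T.d p (x.1.1 (- -S.toFam.T.pr x.1.1 p)) ≤ S.toFam.T.d p (x.1.1 (-k))
  rw [neg_neg]
  omega

end gen

lemma rep_red (k : ℕ) : FreeGroup.IsReduced (rep (root .c) k) := by
  unfold FreeGroup.IsReduced
  rw [List.isChain_iff_getElem]
  intro i hi
  have hlen : (rep (root Rl.c) k).length = k * 3 := rep_length _ _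
  have e1 := pe_rep pd.x0 (root .c) k i (by rw [hlen] at hi; show i < k * 3; omega)
  have e2 := pe_rep pd.x0 (root .c) k (i + 1) (by rw [hlen] at hi; show i + 1 < k * 3; omega)
  rw [List.getD_eq_getElem _ _ (by omega)] at e1 e2
  rw [e1, e2]
  intro h
  have h3 := wl_red (.c, true) i
  by_contra hcon
  apply h3
  have e3 : pd.wl (.c, true) (i + 1) = pe pd.x0 (root .c) ((i + 1 : ℕ) : ℤ) := by push_cast; rfl
  have e4 : pd.wl (.c, true) i = pe pd.x0 (root .c) (i : ℤ) := rfl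
  rw [e3, e4]
  refine Prod.ext h.symm ?_
  show _ = !_
  rcases h5 : (pe pd.x0 (root .c) (i : ℤ)).2 <;> rcases h6 : (pe pd.x0 (root .c) ((i + 1 : ℕ) : ℤ)).2
  · rw [h5, h6] at hcon; exact absurd rfl hcon
  · rfl
  · rfl
  · rw [h5, h6] at hcon; exact absurd rfl hcon

lemma pr_small_aux (k : ℕ) (x : sys.toFam.fam)
    (hx : sys.toFam.T.pr x.1.1 1 + 14 ≤ sys.toFam.T.pr x.1.1 (mk (rep (root .c) k))) : False := by
  set l := rep (root .c) k with hl
  have hlen : l.length = k * 3 := rep_length _ _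
  have hword : (mk l).toWord = l := by rw [toWord_mk, (rep_red k).reduce_eq]
  obtain ⟨m, hm⟩ := pr_label' sys x (mk l) (by omega)
  rw [hword] at hm
  obtain ⟨⟨φ, L⟩, hφ⟩ := x
  obtain ⟨b, ⟨r, hr0, hr⟩, g, s, ε, hb⟩ := hφ
  subst hr
  simp only at hm hx
  have hφ2 : φ = Words.ln (pd.wl (r, true)) g s ε := (Prod.ext_iff.1 hb).1
  set a := sys.toFam.T.pr φ 1
  have hm14 := (hm 14 (by push_cast; omega)).1
  have key := pd.window_inj pd_chk (r, ε) (.c, true) (sg ε * s + a) m ?_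
  · exact hr0 (congrArg Prod.fst key.1)
  intro j hj
  have h1 := (hm j (by omega)).2
  have h2 := (hm (j + 1) (by push_cast; omega)).2
  have h3 : φ (a + j + 1) = φ (a + j) * FreeGroup.mk [lab (pd.wl (r, true)) s ε (a + j)] := by
    rw [hφ2]
    exact Words.ln_succ _ _ _ _ _
  rw [show a + ((j + 1 : ℕ) : ℤ) = a + j + 1 by push_cast; ring, h3, h1] at h2
  have h4 : l.take (m + (j + 1)) = l.take (m + j) ++ [l[m + j]'(by omega)] := by
    rw [← add_assoc, List.take_succ_eq_append_getElem (by omega)]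
  rw [h4, ← mul_mk] at h2
  have h5 := Words.mk_single_inj (mul_left_cancel h2)
  rw [pd.lab_eq pd_chk] at h5
  have e1 := pe_rep pd.x0 (root .c) k (m + j) (by show m + j < k * 3; omega)
  rw [List.getD_eq_getElem _ _ (by rw [← hl]; omega)] at e1
  have e2 : pd.wl (.c, true) ((m : ℤ) + j) = pe pd.x0 (root .c) ((m + j : ℕ) : ℤ) := by
    push_cast; rfl
  rw [e2, ← e1, add_assoc, h5]

/-- powers of `c` have small projections -/
lemma pr_small (k : ℕ) (x : sys.toFam.fam) :
    |sys.toFam.T.pr x.1.1 1 - sys.toFam.T.pr x.1.1 (mk (rep (root .c) k))| ≤ 13 := by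
  by_contra hcon
  push Not at hcon
  rcases lt_abs.1 hcon with h1 | h1
  · have hy := sys.toFam.rev_mem x.1 x.2
    apply pr_small_aux k ⟨_, hy⟩
    show sys.toFam.T.pr (fun k => x.1.1 (-k)) 1 + 14 ≤
      sys.toFam.T.pr (fun k => x.1.1 (-k)) (mk (rep (root .c) k))
    rw [rev_pr', rev_pr']
    omega
  · exact pr_small_aux k x (by omega)

lemma mk_rep (l : List (Lt × Bool)) (k : ℕ) : mk (rep l k) = mk l ^ k := by
  induction k with
  | zero => rfl
  | succ k ih => rw [rep, ← mul_mk, ih, pow_succ']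

/-- the element `c` -/
def cc : GG := ge (.b false) * ge (.b false) * ge (.b true)

lemma cc_eq : cc = ((mk (root .c) : FreeGroup Lt) : GG) := by
  unfold cc
  rw [show (mk (root .c) : FreeGroup Lt) = of (Lt.b false) * of (Lt.b false) * of (Lt.b true) from rfl]
  rfl

/-- the powers of `c` are geodesic -/
theorem wlen_cc (k : ℕ) : Pool.Agent.H322R3.Hyp.wlen (Set.range ge) (cc ^ k) = 3 * k := by
  have h := dist_eq (S := sys) 1 (mk (rep (root .c) k)) ?_
  · have e1 : ((1 : FreeGroup Lt) : GG)⁻¹ * ((mk (rep (root .c) k) : FreeGroup Lt) : GG) = cc ^ k := by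
      rw [cc_eq, mk_rep]
      show (1 : GG)⁻¹ * _ = _
      rw [inv_one, one_mul]
      rfl
    rw [e1, fd_one] at h
    have e2 : norm (mk (rep (root .c) k)) = 3 * k := by
      show (toWord _).length = _
      rw [toWord_mk, (rep_red k).reduce_eq, rep_length]
      show k * 3 = 3 * k
      ring
    rw [e2] at h
    exact_mod_cast h
  · intro x
    have h1 := pr_small k x
    have hL : x.1.2 = 280 := by
      obtain ⟨⟨φ, L⟩, hφ⟩ := x
      obtain ⟨b, ⟨r, hr0, hr⟩, g, s, ε, hb⟩ := hφ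
      subst hr
      exact (Prod.ext_iff.1 hb).2
    have hK : sys.toFam.K = 20 := rfl
    rw [hL, hK]
    omega

end Pool.Agent.H346.QC
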