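import Mathlib
import Pool.Graph.R_seed8.H17R2.LineFam

set_option autoImplicit false

/-!
# Families of lines in a tree satisfying metric small cancellation, for an action in which only
the identity fixes two distinct vertices (variant of `Pool.Agent.H17R2.LineFam`, where the action
is free on the vertices)
-/

namespace Pool.Agent.H346.QC

open Pool.Agent.H17R2

/-- A family of periodic lines in a tree with metric small cancellation. -/
structure LF (Γ V : Type*) [Group Γ] [MulAction Γ V] where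
  T : ZTree V
  fam : Set ((ℤ → V) × ℤ)
  K : ℤ
  v0 : V
  hK : 20 ≤ K
  smul_d : ∀ (g : Γ) p q, T.d (g • p) (g • q) = T.d p q
  pfix : ∀ (g : Γ) (p q : V), p ≠ q → g • p = p → g • q = q → g = 1
  step : ∀ (n : ℕ) q, T.d v0 q ≤ n + 1 → ∃ p, T.d v0 p ≤ n ∧ T.d p q ≤ 1
  line : ∀ x ∈ fam, T.IsLine x.1
  smul_mem : ∀ g : Γ, ∀ x ∈ fam, ((fun k => g • x.1 k), x.2) ∈ fam
  shift_mem : ∀ s : ℤ, ∀ x ∈ fam, ((fun k => x.1 (k + s)), x.2) ∈ fam
  rev_mem : ∀ x ∈ fam, ((fun k => x.1 (-k)), x.2) ∈ fam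
  KL : ∀ x ∈ fam, K ≤ x.2
  sc : ∀ x ∈ fam, ∀ y ∈ fam, ∀ t : ℕ, (∀ k : ℕ, k ≤ t → x.1 k = y.1 k) →
    (x.2 ≤ K * t ∨ y.2 ≤ K * t) → x = y

namespace LF

variable {Γ V : Type*} [Group Γ] [MulAction Γ V] (S : LF Γ V)

instance : MulAction Γ S.fam where
  smul g x := ⟨((fun k => g • x.1.1 k), x.1.2), S.smul_mem g x.1 x.2⟩
  one_smul x := by
    apply Subtype.ext
    show ((fun k => (1 : Γ) • x.1.1 k), x.1.2) = x.1
    simp
  mul_smul g h x := by
    apply Subtype.ext
    show ((fun k => (g * h) • x.1.1 k), x.1.2) = ((fun k => g • h • x.1.1 k), x.1.2)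
    simp [mul_smul]

lemma smul_fst (g : Γ) (x : S.fam) : (g • x).1.1 = fun k => g • x.1.1 k := rfl
lemma smul_snd (g : Γ) (x : S.fam) : (g • x).1.2 = x.1.2 := rfl

lemma pr_smul (g : Γ) (x : S.fam) (p : V) :
    S.T.pr (g • x).1.1 (g • p) = S.T.pr x.1.1 p := by
  apply (S.line _ (g • x).2).pr_eq
  intro k
  rw [smul_fst]
  simp only [S.smul_d]
  rw [(S.line _ x.2).pr_spec p k]
  have := abs_nonneg (k - S.T.pr x.1.1 p)
  omega

/-- Two lines in the family which are reparametrizations of each other. -/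
lemma same_of (x y : S.fam) (a b ε : ℤ) (hε : ε = 1 ∨ ε = -1)
    (h : ((fun k => x.1.1 (k + a)), x.1.2) = ((fun k => y.1.1 (b + ε * k)), y.1.2)) :
    (Pool.Agent.H17R2.trans x.1.1 x.1.2 : Subgroup Γ) = Pool.Agent.H17R2.trans y.1.1 y.1.2 ∧ x.1.2 = y.1.2 ∧
      ∀ p q, |S.T.pr x.1.1 p - S.T.pr x.1.1 q| = |S.T.pr y.1.1 p - S.T.pr y.1.1 q| := by
  have h1 : ∀ k, x.1.1 (k + a) = y.1.1 (b + ε * k) := fun k => congrFun (Prod.ext_iff.1 h).1 k
  have h2 : x.1.2 = y.1.2 := (Prod.ext_iff.1 h).2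
  have hε2 : ε * ε = 1 := by rcases hε with h | h <;> subst h <;> norm_num
  have h3 : ∀ k, x.1.1 k = y.1.1 (b + ε * (k - a)) := fun k => by
    rw [← h1, sub_add_cancel]
  have h4 : ∀ k, y.1.1 k = x.1.1 (a + ε * (k - b)) := fun k => by
    have e : b + ε * (a + ε * (k - b) - a) = k := by
      linear_combination (k - b) * hε2
    rw [h3, e]
  refine ⟨?_, h2, ?_⟩
  · ext g
    constructor
    · rintro ⟨m, hm⟩
      refine ⟨ε * m, fun k => ?_⟩
      have e : a + ε * (k + ε * m * y.1.2 - b) = a + ε * (k - b) + m * x.1.2 := by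
        rw [← h2]
        linear_combination (m * x.1.2) * hε2
      rw [h4 k, h4 (k + ε * m * y.1.2), hm, e]
    · rintro ⟨m, hm⟩
      refine ⟨ε * m, fun k => ?_⟩
      have e : b + ε * (k + ε * m * x.1.2 - a) = b + ε * (k - a) + m * y.1.2 := by
        rw [← h2]
        linear_combination (m * x.1.2) * hε2
      rw [h3 k, h3 (k + ε * m * x.1.2), hm, e]
  · have h5 : ∀ p, S.T.pr x.1.1 p = a + ε * (S.T.pr y.1.1 p - b) := by
      intro p
      apply (S.line _ x.2).pr_eq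
      intro k
      rw [← h4, h3 k, (S.line _ y.2).pr_spec p (b + ε * (k - a))]
      have := abs_nonneg (b + ε * (k - a) - S.T.pr y.1.1 p)
      omega
    intro p q
    rw [h5, h5, show a + ε * (S.T.pr y.1.1 p - b) - (a + ε * (S.T.pr y.1.1 q - b)) =
      ε * (S.T.pr y.1.1 p - S.T.pr y.1.1 q) by ring, abs_mul]
    rcases hε with h | h <;> subst h <;> simp

lemma repar_mem (x : S.fam) (b ε : ℤ) (hε : ε = 1 ∨ ε = -1) :
    ((fun k => x.1.1 (b + ε * k)), x.1.2) ∈ S.fam := by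
  rcases hε with h | h
  · subst h
    have := S.shift_mem b x.1 x.2
    convert this using 3
    ring_nf
  · subst h
    have := S.rev_mem _ (S.shift_mem b x.1 x.2)
    convert this using 3
    ring_nf

lemma same_of_large (x y : S.fam) (s t : ℤ)
    (h : x.1.2 ≤ S.K * |S.T.pr x.1.1 (y.1.1 s) - S.T.pr x.1.1 (y.1.1 t)|) :
    (Pool.Agent.H17R2.trans x.1.1 x.1.2 : Subgroup Γ) = Pool.Agent.H17R2.trans y.1.1 y.1.2 ∧ x.1.2 = y.1.2 ∧
      ∀ p q, |S.T.pr x.1.1 p - S.T.pr x.1.1 q| = |S.T.pr y.1.1 p - S.T.pr y.1.1 q| := by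
  wlog hlt : S.T.pr x.1.1 (y.1.1 s) < S.T.pr x.1.1 (y.1.1 t) generalizing s t
  · rcases (not_lt.1 hlt).lt_or_eq with h1 | h1
    · exact this t s (by rwa [abs_sub_comm]) h1
    · exfalso
      rw [h1] at h
      have h2 := S.KL _ x.2
      have h3 := S.hK
      simp at h
      omega
  obtain ⟨b, ε, hε, hk⟩ := (S.line _ x.2).overlap (S.line _ y.2) s t hlt
  set a := S.T.pr x.1.1 (y.1.1 s)
  set a' := S.T.pr x.1.1 (y.1.1 t)
  apply S.same_of x y a b ε hε
  apply S.sc _ (S.shift_mem a x.1 x.2) _ (S.repar_mem y b ε hε) (a' - a).toNat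
  · intro k hk'
    have := hk k (by positivity) (by omega)
    simp only
    rw [add_comm, this]
  · left
    rw [abs_sub_comm, abs_of_pos (sub_pos.2 hlt)] at h
    rw [Int.toNat_of_nonneg (by omega)]
    exact h

/-- The abstract family of lines attached to a `LF`. -/
noncomputable def toLines : Lines Γ V S.fam where
  d := S.T.d
  c := fun x p => S.T.pr x.1.1 p
  L := fun x => x.1.2
  H := fun x => Pool.Agent.H17R2.trans x.1.1 x.1.2
  K := S.K
  v0 := S.v0
  hK := S.hK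
  d_self := S.T.d_self
  d_smul := S.smul_d
  d_zero := by
    intro q hq
    have := S.T.d_nonneg S.v0 q
    exact (S.T.eq_of_zero _ _ (le_antisymm hq this)).symm
  d_step := S.step
  c_smul := S.pr_smul
  c_lip := fun x p q => (S.line _ x.2).lip p q
  c_unb := by
    intro x
    refine ⟨x.1.1 0, x.1.1 x.1.2, ?_⟩
    have h2 := S.KL _ x.2
    have h3 := S.hK
    rw [(S.line _ x.2).pr_self, (S.line _ x.2).pr_self, zero_sub, abs_neg,
      abs_of_nonneg (by omega)]
    nlinarith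
  L_smul := fun g x => rfl
  H_smul := by
    rintro g x h ⟨m, hm⟩
    refine ⟨m, fun k => ?_⟩
    rw [smul_fst]
    simp only [mul_smul, inv_smul_smul, hm]
    rfl
  hKL := fun x => S.KL _ x.2
  htau := by
    rintro x h ⟨m, hm⟩ h1
    have hx := S.line _ x.2
    have hL := S.KL _ x.2
    have hK := S.hK
    refine ⟨m * x.1.2, ?_, ?_⟩
    · have hm0 : m ≠ 0 := by
        rintro rfl
        apply h1
        have hne : x.1.1 0 ≠ x.1.1 1 := by
          intro h01
          have h2 := hx 0 1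
          rw [← h01, S.T.d_self] at h2
          norm_num at h2
        apply S.pfix h (x.1.1 0) (x.1.1 1) hne
        · rw [hm]; simp
        · rw [hm]; simp
      rw [abs_mul, abs_of_pos (by omega : 0 < x.1.2)]
      have := Int.one_le_abs hm0
      nlinarith
    · intro p
      apply hx.pr_eq
      intro k
      have e1 : x.1.1 (S.T.pr x.1.1 p + m * x.1.2) = h • x.1.1 (S.T.pr x.1.1 p) := (hm _).symm
      have e2 : x.1.1 k = h • x.1.1 (k - m * x.1.2) := by rw [hm, sub_add_cancel]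
      rw [e1, e2, S.smul_d, S.smul_d, hx.pr_spec p (k - m * x.1.2)]
      have := abs_nonneg (k - m * x.1.2 - S.T.pr x.1.1 p)
      omega
  dich := by
    intro x y
    by_cases h1 : ∃ s t, x.1.2 ≤ S.K * |S.T.pr x.1.1 (y.1.1 s) - S.T.pr x.1.1 (y.1.1 t)|
    · left
      obtain ⟨s, t, h⟩ := h1
      exact S.same_of_large x y s t h
    by_cases h2 : ∃ s t, y.1.2 ≤ S.K * |S.T.pr y.1.1 (x.1.1 s) - S.T.pr y.1.1 (x.1.1 t)|
    · left
      obtain ⟨s, t, h⟩ := h2
      obtain ⟨q1, q2, q3⟩ := S.same_of_large y x s t h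
      exact ⟨q1.symm, q2.symm, fun p q => (q3 p q).symm⟩
    right
    push Not at h1 h2
    refine ⟨Set.range (fun k => S.T.pr x.1.1 (y.1.1 k)), Set.range (fun k => S.T.pr y.1.1 (x.1.1 k)),
      ?_, ?_, ?_⟩
    · intro p
      rcases (S.line _ x.2).behrstock (S.line _ y.2) p with h | h
      · left; exact ⟨_, h.symm⟩
      · right; exact ⟨_, h.symm⟩
    · rintro _ ⟨s, rfl⟩ _ ⟨t, rfl⟩
      exact h1 s t
    · rintro _ ⟨s, rfl⟩ _ ⟨t, rfl⟩
      exact h2 s t

/-- The group generated by the translations. -/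
def N : Subgroup Γ := ⨆ x : S.fam, Pool.Agent.H17R2.trans x.1.1 x.1.2

/-- Weak Greendlinger lemma: a nontrivial element of the group generated by all the translations
moves the base point along more than `1 - 6/K` of a full period of some line. -/
theorem greendlinger (g : Γ) (hg : g ∈ S.N) (h1 : g ≠ 1) : ∃ x ∈ S.fam, ∃ D : ℤ, 0 < D ∧
    (S.K - 6) * x.2 ≤ S.K * D ∧
    S.T.d S.v0 (g • S.v0) = S.T.d S.v0 (x.1 0) + D + S.T.d (x.1 D) (g • S.v0) := by
  obtain ⟨x, hx⟩ := S.toLines.windmill g hg h1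
  change (S.K - 6) * x.1.2 ≤ S.K * |S.T.pr x.1.1 S.v0 - S.T.pr x.1.1 (g • S.v0)| at hx
  have hL := S.KL _ x.2
  have hK := S.hK
  have hne : S.T.pr x.1.1 S.v0 ≠ S.T.pr x.1.1 (g • S.v0) := by
    intro h
    rw [h] at hx
    simp only [sub_self, abs_zero, mul_zero] at hx
    nlinarith
  have hd := (S.line _ x.2).d_eq _ _ hne
  set a := S.T.pr x.1.1 S.v0
  set b := S.T.pr x.1.1 (g • S.v0)
  rcases lt_or_gt_of_ne hne with h | h
  · have e : |a - b| = b - a := by rw [abs_sub_comm]; exact abs_of_pos (sub_pos.2 h)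
    rw [e] at hx hd
    refine ⟨_, S.shift_mem a x.1 x.2, b - a, by omega, hx, ?_⟩
    simp only
    rw [hd]
    congr 3 <;> ring_nf
  · have e : |a - b| = a - b := abs_of_pos (sub_pos.2 h)
    rw [e] at hx hd
    refine ⟨_, S.rev_mem _ (S.shift_mem a x.1 x.2), a - b, by omega, hx, ?_⟩
    simp only
    rw [hd]
    congr 3 <;> ring_nf

end LF

end Pool.Agent.H346.QC
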