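import Pool.Agent.H346.QC.Stm
import Pool.Agent.H346.AT.Tree

set_option autoImplicit false

/-!
# Job SPLIT: a Serre-type lemma on tree actions
-/

namespace Pool.Agent.H346.QC.SplitP

open Pool.Agent.H346.AT SimpleGraph

universe u

section

variable {V : Type u} {T : SimpleGraph V} {G : Type*} [Group G] (ρ : G →* Equiv.Perm V)
  (hρ : ∀ g u v, T.Adj u v → T.Adj (ρ g u) (ρ g v)) (hT : T.IsTree)
include hρ hT

/-- an element of finite order fixes a vertex -/
lemma fix_fin (hinv : ∀ g u v, T.Adj u v → ¬ (ρ g u = v ∧ ρ g v = u)) {g : G}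
    (hg : IsOfFinOrder g) : ∃ v, ρ g v = v := by
  obtain ⟨x⟩ := hT.1.nonempty
  have hfin : (Subgroup.zpowers g : Set G).Finite := hg.finite_zpowers
  obtain ⟨N, hN⟩ := (hfin.image fun h => T.dist x (ρ h x)).bddAbove
  obtain ⟨v, hv⟩ := fixed_of_bounded ρ hρ hT hinv (Subgroup.zpowers g) x N
    (fun h hh => hN ⟨h, hh, rfl⟩)
  exact ⟨v, hv g (Subgroup.mem_zpowers g)⟩

/-- the nearest fixed vertex is the midpoint -/
lemma mid {g : G} (h : ∃ v, ρ g v = v) (p : V) :
    ∃ m, ρ g m = m ∧ Bt T p m (ρ g p) ∧ T.dist p m = T.dist m (ρ g p) := by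
  obtain ⟨m, hm, hmin⟩ := (measure (fun m => T.dist p m)).wf.has_min {m | ρ g m = m} h
  change ∀ y' ∈ _, ¬ T.dist p y' < T.dist p m at hmin
  have hm' : ρ g m = m := hm
  obtain ⟨c, h1, h2, h3⟩ := exists_med hT p m (ρ g p)
  -- `c` is fixed
  have hd : T.dist (ρ g p) (ρ g c) = T.dist p c := dist_act ρ hρ hT g p c
  have hdm : T.dist m (ρ g p) = T.dist m p := by
    have := dist_act ρ hρ hT g m p
    rwa [hm'] at this
  have h4 : Bt T (ρ g p) (ρ g c) m := by
    have := bt_act ρ hρ hT g h1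
    rwa [hm'] at this
  have hc : ρ g c = c := by
    refine bt_eq hT h4 h2.symm ?_
    rw [hd]
    unfold Bt at h1 h2
    have e1 := T.dist_comm (u := c) (v := m)
    have e2 := T.dist_comm (u := m) (v := p)
    have e3 := T.dist_comm (u := ρ g p) (v := c)
    omega
  have h5 := hmin c hc
  have hcm : c = m := by
    unfold Bt at h1
    exact eq_of_zero hT (by omega)
  subst hcm
  refine ⟨c, hc, h3, ?_⟩
  rw [hdm, T.dist_comm]

/-- a vertex fixed by `b` has a nearest vertex fixed by `a`, it is fixed by both -/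
lemma common {a b : G} (ha : ∃ v, ρ a v = v) (hb : ∃ v, ρ b v = v) (hab : ∃ v, ρ (a * b) v = v) :
    ∃ v, ρ a v = v ∧ ρ b v = v := by
  obtain ⟨y, hy⟩ := hb
  obtain ⟨x, hx, h1, h2⟩ := mid ρ hρ hT ha y
  obtain ⟨m, hm, h3, h4⟩ := mid ρ hρ hT hab y
  have e : ρ (a * b) y = ρ a y := by rw [map_mul, Equiv.Perm.mul_apply, hy]
  rw [e] at h3 h4
  have hxm : x = m := by
    refine bt_eq hT h1 h3 ?_
    unfold Bt at h1 h3
    omega
  subst hxm
  refine ⟨x, hx, ?_⟩
  rw [map_mul, Equiv.Perm.mul_apply] at hm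
  exact (ρ a).injective (hm.trans hx.symm)

end

lemma fix_closure {V : Type u} {G : Type*} [Group G] (ρ : G →* Equiv.Perm V) {S : Set G} {v : V}
    (h : ∀ g ∈ S, ρ g v = v) : ∀ g ∈ Subgroup.closure S, ρ g v = v := by
  intro g hg
  induction hg using Subgroup.closure_induction with
  | mem x hx => exact h x hx
  | one => simp
  | mul x y _ _ hx hy => rw [map_mul, Equiv.Perm.mul_apply, hy, hx]
  | inv x _ hx =>
    rw [map_inv, Equiv.Perm.inv_eq_iff_eq]
    exact hx.symm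

theorem t : Pool.Agent.H346.QC.S_SPLIT.{u} := by
  intro G _ V T hT ρ hρ hinv b0 b1 w X hgen hb0 hb1 hw hb01 hb0w hb1w hX hE
  have f0 := fix_fin ρ hρ hT hinv hb0
  have f1 := fix_fin ρ hρ hT hinv hb1
  have fw := fix_fin ρ hρ hT hinv hw
  obtain ⟨v, hv0, hv1⟩ := common ρ hρ hT f0 f1 (fix_fin ρ hρ hT hinv hb01)
  obtain ⟨u0, hu0, hu0w⟩ := common ρ hρ hT f0 fw (fix_fin ρ hρ hT hinv hb0w)
  obtain ⟨u1, hu1, hu1w⟩ := common ρ hρ hT f1 fw (fix_fin ρ hρ hT hinv hb1w)
  have hB : ∀ b ∈ Subgroup.closure {b0, b1}, ρ b v = v := by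
    refine fix_closure ρ ?_
    rintro g (rfl | rfl)
    · exact hv0
    · exact hv1
  have hb0B : b0 ∈ Subgroup.closure ({b0, b1} : Set G) := Subgroup.subset_closure (by simp)
  have hb1B : b1 ∈ Subgroup.closure ({b0, b1} : Set G) := Subgroup.subset_closure (by simp)
  -- `X` fixes `v`
  have hXv : ∀ x ∈ X, ρ x v = v := by
    intro x hx
    by_contra hne
    have hbx : ∀ b ∈ Subgroup.closure ({b0, b1} : Set G), ρ b (ρ x v) = ρ x v := by
      intro b hb
      have h1 := hB _ (hX x hx b hb)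
      rw [map_mul, map_mul, map_inv, Equiv.Perm.mul_apply, Equiv.Perm.mul_apply,
        Equiv.Perm.inv_eq_iff_eq] at h1
      exact h1
    obtain ⟨n, a, hn⟩ := exists_closer hT (Ne.symm hne)
    have hbt : Bt T v n (ρ x v) := by
      unfold Bt
      have : T.dist v n = 1 := dist_eq_one_iff_adj.2 a
      omega
    exact hne (hE v n a hv0 (fix_bt ρ hρ hT hv0 (hbx b0 hb0B) hbt) hv1
      (fix_bt ρ hρ hT hv1 (hbx b1 hb1B) hbt) x hx).1
  -- the nearest fixed vertex of `w`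
  obtain ⟨q, hq, hmin⟩ := (measure (fun m => T.dist v m)).wf.has_min {m | ρ w m = m} fw
  change ∀ y' ∈ _, ¬ T.dist v y' < T.dist v q at hmin
  have hq' : ρ w q = q := hq
  have hbt : ∀ u, ρ w u = u → Bt T v q u := by
    intro u hu
    obtain ⟨c, h1, h2, h3⟩ := exists_med hT v q u
    have hc : ρ w c = c := fix_bt ρ hρ hT hq' hu h2
    have h4 := hmin c hc
    have : c = q := by
      unfold Bt at h1
      exact eq_of_zero hT (by omega)
    rwa [this] at h3
  have hq0 : ρ b0 q = q := fix_bt ρ hρ hT hv0 hu0 (hbt u0 hu0w)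
  have hq1 : ρ b1 q = q := fix_bt ρ hρ hT hv1 hu1 (hbt u1 hu1w)
  have hXq : ∀ x ∈ X, ρ x q = q := by
    intro x hx
    by_cases e : q = v
    · rw [e]; exact hXv x hx
    obtain ⟨n, a, hn⟩ := exists_closer hT e
    have hbt' : Bt T q n v := by
      unfold Bt
      have : T.dist q n = 1 := dist_eq_one_iff_adj.2 a
      omega
    exact (hE q n a hq0 (fix_bt ρ hρ hT hq0 hv0 hbt') hq1 (fix_bt ρ hρ hT hq1 hv1 hbt') x hx).1
  refine ⟨q, fun g => ?_⟩
  refine fix_closure ρ (S := {b0, b1, w} ∪ X) ?_ g (by rw [hgen]; trivial)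
  rintro g ((rfl | rfl | rfl) | hg)
  · exact hq0
  · exact hq1
  · exact hq'
  · exact hXq g hg

end Pool.Agent.H346.QC.SplitP
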