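import Pool.Agent.H346.QC.Amal
import Pool.Agent.H346.QC.Axis
import Pool.Agent.H346.QC.Split
import Pool.Agent.H650.QC.Maln
import Pool.Agent.H627.QC.Fam
import Pool.Agent.H811.QC.QC

set_option autoImplicit false

/-!
# Assembly
-/

namespace Pool.Agent.H346.QC

open SimpleGraph Pool.Agent.H346.AT Pool.Agent.H346.SC Pool.Agent.H322R3.Hyp

universe u

theorem millRes : MillRes (bB false) (bB true) := by
  obtain ⟨h0, h1, h01⟩ := b_ne
  exact mill Pool.Agent.H627.QC.t Pool.Agent.H650.QC.t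
    (fun h => h0 (congrArg Subtype.val h)) (fun h => h1 (congrArg Subtype.val h))
    (fun h => h01 (congrArg Subtype.val h))

lemma tree : (bsGraph CC).IsTree := CC_tree millRes

lemma x_pow_not_mem {n : ℕ} (hn : n ≠ 0) : ge (.x 0) ^ n ∉ CC true := by
  intro h
  have h1 := CC_inter millRes (A.pow_mem (x_mem 0) n) h
  have h2 := piQ_B h1
  rw [map_pow, piQ_x] at h2
  have h3 := orderOf_dvd_of_pow_eq_one h2
  rw [xq_order, zero_dvd_iff] at h3
  exact hn h3

theorem axes : ∃ (g h : GG) (γ η : ℤ → BV CC),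
      ((∀ i j, (bsGraph CC).dist (γ i) (γ j) = (i - j).natAbs) ∧ ∀ i, bsAct CC g (γ i) = γ (i + 2)) ∧
      ((∀ i j, (bsGraph CC).dist (η i) (η j) = (i - j).natAbs) ∧ ∀ i, bsAct CC h (η i) = η (i + 2)) ∧
      (Set.range γ ∩ Set.range η).Finite := by
  have hx : ∀ n : ℕ, ge (.x 0) ^ n ∈ CC false := fun n => by
    rw [CC_false]; exact A.pow_mem (x_mem 0) n
  have h1 := x_pow_not_mem (n := 1) (by norm_num)
  have h2 := x_pow_not_mem (n := 2) (by norm_num)
  have h3 := x_pow_not_mem (n := 3) (by norm_num)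
  refine two_axes tree (a := ge (.x 0) ^ 1) (w := ge .w) (c := ge (.x 0) ^ 2) (hx 1) h1 w_mem
    (by rw [CC_false]; exact w_not_mem millRes) (hx 2) h2 ?_ ?_ ?_
  · rw [← pow_add]; exact h3
  · have e : (ge (.x 0) ^ 1)⁻¹ * ge (.x 0) ^ 2 = ge (.x 0) ^ 1 := by
      rw [pow_one, pow_two, inv_mul_cancel_left]
    rw [e]; exact h1
  · have e : (ge (.x 0) ^ 1)⁻¹ * ge (.x 0) ^ 2 * ge (.x 0) ^ 1 = ge (.x 0) ^ 2 := by
      rw [pow_one, pow_two, inv_mul_cancel_left]
    rw [e]; exact h2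

lemma B_eq : B = Subgroup.closure {ge (.b false), ge (.b true)} := by
  unfold B
  congr 1
  ext x
  constructor
  · rintro ⟨j, rfl⟩
    cases j
    · exact Or.inl rfl
    · exact Or.inr rfl
  · rintro (rfl | rfl)
    · exact ⟨false, rfl⟩
    · exact ⟨true, rfl⟩

lemma gens_top : Subgroup.closure ({ge (.b false), ge (.b true), ge .w} ∪
    Set.range fun i => ge (.x i)) = ⊤ := by
  rw [eq_top_iff, ← closure_ge]
  apply Subgroup.closure_mono
  rintro _ ⟨x, rfl⟩
  cases x with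
  | x i => exact Or.inr ⟨i, rfl⟩
  | b j => cases j <;> simp
  | w => simp

/-- a quasi-convex subgroup which contains `B` contains `A` -/
theorem A_le (H : Subgroup GG) (hB : B ≤ H) (hQ : QuasiConvex H) : A ≤ H :=
  A_le_of_finiteIndex H hB (Pool.Agent.H811.QC.t GG (Set.range ge) range_ge_finite closure_ge hyp
    cc 1 (fun n => by rw [wlen_cc]; omega) A B H cc_mem (fun _ ha _ hb => A_norm ha hb) hB hQ)

/-- every quasi-convex splitting of the group has a global fixed vertex -/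
theorem main {V : Type u} {T : SimpleGraph V} (hT : T.IsTree) (ρ : GG →* Equiv.Perm V)
    (hadj : ∀ g u v, T.Adj u v → T.Adj (ρ g u) (ρ g v))
    (hinv : ∀ g u v, T.Adj u v → ¬ (ρ g u = v ∧ ρ g v = u))
    (hQC : ∀ u v, T.Adj u v → ∀ H : Subgroup GG, (∀ g, g ∈ H ↔ ρ g u = u ∧ ρ g v = v) →
      QuasiConvex H) : ∃ v, ∀ g, ρ g v = v := by
  have fo : ∀ (x : GG) (n : ℕ), 0 < n → x ^ n = 1 → IsOfFinOrder x := fun x n hn hx =>
    isOfFinOrder_iff_pow_eq_one.2 ⟨n, hn, hx⟩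
  refine Pool.Agent.H346.QC.SplitP.t GG V T hT ρ hadj hinv (ge (.b false)) (ge (.b true)) (ge .w)
    (Set.range fun i => ge (.x i)) gens_top (fo _ 280 (by norm_num) (ge_rels.t0 _))
    (fo _ 280 (by norm_num) (ge_rels.t0 _)) (fo _ 280 (by norm_num) ge_rels.t2)
    (fo _ 140 (by norm_num) ge_rels.t1) (fo _ 140 (by norm_num) (ge_rels.t3 _))
    (fo _ 140 (by norm_num) (ge_rels.t3 _)) ?_ ?_
  · rw [← B_eq]
    rintro _ ⟨i, rfl⟩ b hb
    exact A_norm (x_mem i) hb
  · intro u v huv h1 h2 h3 h4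
    let H : Subgroup GG :=
      { carrier := {g | ρ g u = u ∧ ρ g v = v}
        one_mem' := by simp
        mul_mem' := by
          rintro a b ⟨h1, h2⟩ ⟨h3, h4⟩
          exact ⟨by rw [map_mul, Equiv.Perm.mul_apply, h3, h1],
            by rw [map_mul, Equiv.Perm.mul_apply, h4, h2]⟩
        inv_mem' := by
          rintro a ⟨h1, h2⟩
          exact ⟨by rw [map_inv, Equiv.Perm.inv_eq_iff_eq, h1],
            by rw [map_inv, Equiv.Perm.inv_eq_iff_eq, h2]⟩ }
    have hB : B ≤ H := by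
      unfold B
      rw [Subgroup.closure_le]
      rintro _ ⟨j, rfl⟩
      cases j
      · exact ⟨h1, h2⟩
      · exact ⟨h3, h4⟩
    have hA := A_le H hB (hQC u v huv H (fun g => Iff.rfl))
    rintro _ ⟨i, rfl⟩
    exact hA (x_mem i)

end Pool.Agent.H346.QC
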