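import Pool.Agent.H346.AT.BS
import Pool.Agent.H346.AT.Push
import Pool.Agent.H346.QC.LF
import Pool.Graph.R_seed8.H322R3.HypDefs

set_option autoImplicit false

/-!
# Statements for MP_172f05 (a hyperbolic group with a non-elementary acylindrical tree action which
is dominated by no quasi-convex splitting)
-/

namespace Pool.Agent.H346.QC

open Pool.Agent.H17R2 Pool.Agent.H322R3.Hyp

universe u

/-- quasi-convexity of a subgroup (for some finite generating set of the group) -/
def QuasiConvex {G : Type} [Group G] (H : Subgroup G) : Prop :=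
  ∃ S : Set G, S.Finite ∧ Subgroup.closure S = ⊤ ∧ ∃ R : ℕ, ∀ h ∈ H, ∀ h' ∈ H, ∀ x : G,
    wlen S (h⁻¹ * x) + wlen S (x⁻¹ * h') = wlen S (h⁻¹ * h') → ∃ k ∈ H, wlen S (x⁻¹ * k) ≤ R

/-- **Job QC** (about 250 lines). Let `G` be hyperbolic, `c ∈ B ≤ G` with linearly growing powers,
`A ≤ G` a subgroup with `a⁻¹ B a ≤ B` for `a ∈ A`, and `H ≥ B` a quasi-convex subgroup. Then
`A ∩ H` has finite index in `A`.

Paper proof. Write `|.|` for `wlen S` and `d x y = |x⁻¹ y|`, where `S` is the finite generating set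
given by the quasi-convexity of `H`.
(1) The word metric of `S` satisfies the four point inequality `Four d D` of
`Pool.Agent.TH54.BU.Defs` for some `D`. Indeed let `d0` be the word metric of `S0`; `IsHyperbolic S0`
is (twice) the four point condition of `d0`. There are `C1, C2 ≥ 1` with `d0 ≤ C1 * d`,
`d ≤ C2 * d0` (bound the finitely many generators). Put `d0' = ⌈d0 / C1⌉` (`dm_scale` of
`Pool.Graph.R_seed8.Y470.SM.QIH`); then `d0' ≤ d ≤ C1 * C2 * d0'` and `d0'` satisfies `Four`, so
`Pool.Agent.Y470.SM.t : S_QIH` gives `Four d D`. (Word metrics are `DM`; see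
`Pool.Agent.H346.SC` (file `Pool/Agent/H346/SC/Hyp.lean`, `qo_dm`, `hyp_of_four`) for how this is
done for quotients of free groups; here `DM` can be checked directly from `wlen_spec`, `wlen_le`.)
(2) Growth: `n ≤ κ' * |c ^ n|` with `κ' = κ * C1`.
(3) There is `N = 2 ^ i ≥ 1` with `|c ^ (2 N)| ≥ |c ^ N| + C`, `C = 2 * D + 1` (say): otherwise
`|c ^ (2 ^ i)| ≤ |c| + i * C` for all `i`, against (2). Put `g = c ^ N`, `a n = |g ^ n|`.
The four point inequality for `1, g^(n-1), g^n, g^(n+1)` reads
`a n + a 2 ≤ max (a (n-1) + a 1) (a (n+1) + a 1) + D`, so by induction `a (n+1) ≥ a n + (C - D)`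
(note `a 2 ≥ a 1 + C`). Next, for `p, q ≥ 1`, the points `g^(-p), 1, g, g^q` give
`a (p+1) + a q ≤ max (a p + a (q-1)) (a (p+q) + a 1) + D`; since `a (p+1) ≥ a p + (C-D)`,
`a q ≥ a (q-1) + (C-D)` and `2 (C-D) > D`, the second alternative holds, so
`a p + a q ≤ a (p+q) + M`, `M = a 1 + D`, for all `p, q ≥ 0`.
(4) Let `a ∈ A` and let `k` be large (compared with `|a|`). Put `y = g^(-k) * a`, `z = g^k * a`.
Four points `1, y, z` and `g^(-k)`, `g^k` (twice) give `|y| + |z| ≤ d y z + M'` with
`M' = M + 2 * D` or similar, independent of `a`: the Gromov product `(y|z)_1` is at most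
`(g^-k | g^k)_1 + 2 δ` as soon as `(g^-k | y)_1 ≥ |g^k| - |a|` and `(g^k | z)_1 ≥ |g^k| - |a|` are
bigger than that. Choose `x` on a geodesic from `y` to `z` (`DM.btw`) with
`d y x` equal to `(|y| + d y z - |z|) / 2`; the four point inequality for `1, x, y, z` gives
`|x| ≤ K` with `K` independent of `a`.
(5) `y = g^(-k) * a = a * (a⁻¹ * g^(-k) * a) ∈ a * B ⊆ a * H`, and `z ∈ a * H` too. So by
quasi-convexity applied to `a⁻¹ * y, a⁻¹ * z ∈ H` and `a⁻¹ * x` there is `k' ∈ H` with
`|x⁻¹ * (a * k')| ≤ R`. So `a * k'` has `|a * k'| ≤ K + R`: the coset `a H` meets the ball of radius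
`K + R`, which is finite. So the cosets `a * H`, `a ∈ A`, are finitely many, and `A ∩ H` has finite
index in `A`. -/
def S_QC : Prop := ∀ (G : Type) [Group G] (S0 : Set G), S0.Finite → Subgroup.closure S0 = ⊤ →
  IsHyperbolic S0 → ∀ (c : G) (κ : ℕ), (∀ n : ℕ, n ≤ κ * wlen S0 (c ^ n)) →
  ∀ (A B H : Subgroup G), c ∈ B → (∀ a ∈ A, ∀ b ∈ B, a⁻¹ * b * a ∈ B) → B ≤ H → QuasiConvex H →
    (H.subgroupOf A).FiniteIndex

/-- **Job SPLIT** (about 150 lines). Let `G = ⟨b0, b1, w, X⟩` act without inversions on a tree,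
where `b0, b1, w, b0 b1, b0 w, b1 w` have finite order, `X` normalises `B = ⟨b0, b1⟩`, and every
edge fixed by `b0` and `b1` is fixed by `X`. Then `G` fixes a vertex.

Paper proof. (0) An element `g` of finite order fixes a vertex (its orbits are finite, so bounded;
see `fixed_of_bounded` in `Pool/Agent/H346/AT/Tree.lean`).
(1) Lemma: if `a`, `b` and `a b` fix vertices then `a` and `b` have a common fixed vertex. Proof:
take fixed vertices `x` of `a` and `y` of `b` at minimal distance; if `x ≠ y`, then the segment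
`[x, y]` meets `Fix a` only in `x` and `Fix b` only in `y`. The segments `[y, x]` and
`[x, a y] = a [x, y]` meet only in `x` (a common point `m` of the two with `d x m = t` satisfies
`a m = m`), so `d y (a y) = 2 d x y` and `x` is the midpoint of `[y, a y] = [y, (a b) y]`.
Now `a b` fixes a vertex, so it fixes the midpoint of `[y, (a b) y]` (this is the
standard fact that for an element `g` with a fixed vertex and without inversions, the
midpoint of `[p, g p]` is fixed: if `m` is the fixed vertex nearest to `p`, then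
`d p (g p) = 2 d p m` and `m ∈ [p, g p]`). So `a b x = x = a x`, so `b x = x`, contradiction.
(2) By (0) and (1), `b0` and `b1` fix a common vertex `v`, so `B` fixes `v`.
(3) Every `x ∈ X` fixes `v`: for `b ∈ B`, `b x v = x (x⁻¹ b x) v = x v`, so `B` fixes `v` and
`x v`; if `x v ≠ v`, the first edge `(v, n)` of the segment `[v, x v]` is fixed by `B`
(`fix_bt`), so by `X`; in particular `x v = v`, contradiction.
(4) By (0) and (1), `w` and `b0` fix a common vertex `u0`, `w` and `b1` fix a common vertex `u1`.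
Let `q` be the fixed vertex of `w` which is closest to `v`. Then `q` lies on `[v, u0]`
(otherwise the median of `v, q, u0` would lie on `[q, u0]`, so be fixed by `w`, and be closer
to `v`) and on `[v, u1]`, so `q` is fixed by `b0` and by `b1`, hence by `B`. If `q = v` we are done.
Otherwise all the vertices of `[v, q]` are fixed by `B`, so all its edges are fixed by `B`, so by
`X`; so `X` fixes `q`. So `b0, b1, w, X` fix `q`. -/
def S_SPLIT : Prop := ∀ (G : Type) [Group G] (V : Type u) (T : SimpleGraph V), T.IsTree →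
  ∀ (ρ : G →* Equiv.Perm V), (∀ g u v, T.Adj u v → T.Adj (ρ g u) (ρ g v)) →
  (∀ g u v, T.Adj u v → ¬ (ρ g u = v ∧ ρ g v = u)) →
  ∀ (b0 b1 w : G) (X : Set G), Subgroup.closure ({b0, b1, w} ∪ X) = ⊤ →
  IsOfFinOrder b0 → IsOfFinOrder b1 → IsOfFinOrder w → IsOfFinOrder (b0 * b1) →
  IsOfFinOrder (b0 * w) → IsOfFinOrder (b1 * w) →
  (∀ x ∈ X, ∀ b ∈ Subgroup.closure {b0, b1}, x⁻¹ * b * x ∈ Subgroup.closure {b0, b1}) →
  (∀ u v, T.Adj u v → ρ b0 u = u → ρ b0 v = v → ρ b1 u = u → ρ b1 v = v →
    ∀ x ∈ X, ρ x u = u ∧ ρ x v = v) →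
  ∃ v, ∀ g, ρ g v = v

/-- **Job MALN** (about 200 lines). Let `F` be a family of lines as in `LF` (small cancellation
with `K ≥ 20`, only `1` fixes two distinct vertices), such that no element reverses a line of the
family about a point of it, and every line `x` has a translation by exactly `x.2`. Let `b ≠ 1` and
`b'` fix the base vertex `v0`, and let `p b p⁻¹ b' ∈ F.N`. Then `n p v0 = v0` for some `n ∈ F.N`.

Paper proof. `F.N` is normal (copy `N_normal` from `Pool/Graph/R_seed8/H17R2/TorsionFree.lean`).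
Replace `p` by `n p` with `n ∈ N` and `d(v0, n p v0)` minimal (the hypothesis is still true:
`(n p) b (n p)⁻¹ b' = n (p b p⁻¹ b') (b'⁻¹ n⁻¹ b')`). Suppose `q = p v0 ≠ v0`. Let
`c = p b p⁻¹ ≠ 1`, so `c q = q`, and let `n0 = c b' ∈ N`, so `n0 v0 = c v0`.
If `n0 = 1` then `c = b'⁻¹` fixes `v0` and `q`, so `c = 1`, contradiction. Otherwise
`LF.greendlinger` gives `x ∈ F.fam` and `D > 0` with `(K - 6) L ≤ K D` (`L = x.2`) and
`d v0 (c v0) = d v0 (x 0) + D + d (x D) (c v0)`; so `pr x v0 = 0`, `pr x (c v0) = D`.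
(a) `d v0 (c v0) = d v0 q + d q (c v0)`: if not, the median `m ≠ q` of `v0, q, c v0` has
`m ∈ [q, v0]`, `m ∈ [q, c v0]`, so `c m ∈ [q, c v0]` is at the same distance from `q` as `m`, so
`c m = m` and `c = 1`.
(b) Put `r = pr x q`. By (a) `0 ≤ r ≤ D`. If `0 < r < D` then `q = x r` (`d_eq` twice).
(c) If `2 r > L`: let `τ` translate `x` by `L`; then `τ ∈ N`, `pr x (τ⁻¹ q) = r - L` and
`d v0 (τ⁻¹ q) ≤ d v0 (x 0) + |r - L| + d (x r) q < d v0 (x 0) + r + d (x r) q = d v0 q`,
contradiction to the minimality of `p`.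
(d) If `2 (D - r) > L`: the same for the line `y = c⁻¹ x` of the family, which has
`pr y q = r`, `pr y v0 = D`.
(e) Otherwise `2 r ≤ L`, `2 (D - r) ≤ L`, and as `K D ≥ (K - 6) L`, `K ≥ 20`, both `r` and `D - r`
are at least `s := min r (D-r) ≥ L / 5`, and positive. So `q = x r`, and for `0 ≤ k ≤ s` the point
`x (r - k)` is the point of `[q, v0]` at distance `k` from `q`, and `x (r + k)` is the point of
`[q, c v0]` at distance `k` from `q`, so `y (r + k) = c⁻¹ x (r + k)` is the point of `[q, v0]`
at distance `k` from `q`. So `x (r - k) = c⁻¹ x (r + k)` for `0 ≤ k ≤ s`, and `K s ≥ L`, so by `sc`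
(with `rev_mem`, `shift_mem`, `smul_mem`) this holds for all `k`: the element `c⁻¹`
reverses the line `k ↦ x (r + k)` of the family about its point `0`, contradiction. -/
def S_MALN : Prop := ∀ (Γ V : Type) [Group Γ] [MulAction Γ V] (F : LF Γ V),
  (∀ x ∈ F.fam, ∀ g : Γ, ¬ ∀ k, g • x.1 k = x.1 (-k)) →
  (∀ x ∈ F.fam, ∃ τ : Γ, ∀ k, τ • x.1 k = x.1 (k + x.2)) →
  ∀ p b b' : Γ, b ≠ 1 → b • F.v0 = F.v0 → b' • F.v0 = F.v0 → p * b * p⁻¹ * b' ∈ F.N →
    ∃ n ∈ F.N, (n * p) • F.v0 = F.v0

/-- the free product of `B` and a cyclic group of order `280` -/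
abbrev Gam (B : Type) [Group B] : Type := Monoid.Coprod B (Multiplicative (ZMod 280))

/-- the generator of the cyclic factor -/
def ww (B : Type) [Group B] : Gam B := Monoid.Coprod.inr (Multiplicative.ofAdd 1)

/-- the relators `(b w) ^ 140`, `b = b0, b1` -/
def tors {B : Type} [Group B] (b0 b1 : B) : Set (Gam B) :=
  {(Monoid.Coprod.inl b0 * ww B) ^ 140, (Monoid.Coprod.inl b1 * ww B) ^ 140}

/-- **Job FAM** (about 350 lines). The lines of `(b0 w)^140` and `(b1 w)^140` in the Bass-Serre tree
of the free product `Gam B` form a family as in `LF` with `K = 20`, `L = 280`.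

Paper proof. Let `C false = range inl`, `C true = range inr` in `Γ = Gam B`. The Bass-Serre tree is
`bsGraph C` of `Pool/Agent/H346/AT/BS.lean` with vertices `bv C i g` (the cosets `g C i`); it is a
tree by `bs_isTree`, where `NF C` follows from `nf_push` of `Pool/Agent/H346/AT/Push.lean` (push-out
over the trivial group) or directly from the library's / Mathlib's normal form in `Monoid.CoprodI`.
Its distance (cast to `ℤ`) is a `ZTree` (`tri`, `eq_of_zero`, `four`, `adj_dist` of
`Pool/Agent/H346/AT/Tree.lean`; parity by induction along a geodesic). `Γ` acts by `smul`; an element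
fixing two distinct vertices fixes an edge (`fix_bt`), so it lies in a conjugate of
`C false ⊓ C true = ⊥` (`pfix`). `v0 = bv C false 1`.
For `j : Bool` let `β = b0` or `b1` (`j = false, true`), `g_j = inl β * w` and let the line
`φ j : ℤ → V` be `φ j (2 n) = bv C false (g_j ^ n)`, `φ j (2 n + 1) = bv C true (g_j ^ n * inl β)`.
Consecutive vertices are adjacent, `φ j k ≠ φ j (k + 2)` (as `β ∉ C true`, `w ∉ C false`), so
`φ j` is a geodesic line: by induction `dist (φ a) (φ (a + n)) = n`, using `closer_unique` and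
`adj_dist`. The family consists of the `(k ↦ g • φ j (s + ε * k), 280)`, `g ∈ Γ`, `s ∈ ℤ`, `ε = ±1`.
It is closed under `Γ`, shifts, reversal. Edges: the edge of the tree with ends `bv C false g`,
`bv C true g` is named `g`; along `g • φ j` the consecutive edges are `e_0, e_1, ...`, with
`e_k⁻¹ e_(k+1)` alternately `w` (at vertices of type `false`, hence `C false`... the letter belongs
to the type of the vertex which is crossed: crossing a vertex of type `true` multiplies by `w`,
crossing a vertex of type `false` multiplies by `inl β`), and `w⁻¹`, `inl β⁻¹` in the other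
direction. So if two lines of the family agree at `t ≥ 14` consecutive steps, they share an edge and
the letters at several vertices of both types: `w ≠ w⁻¹` shows that they have the same direction,
then `inl b0 ≠ inl b1` shows that they have the same `j`, and then they agree everywhere. The same
computation shows that no element reverses a line of the family about a point of it: it would
have `w = w⁻¹`. An element which translates `g • φ j` by `280 m` is `g (g_j) ^ (140 m) g⁻¹`
(`pfix`), which gives the formula for `F.N`. -/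
def S_FAM : Prop := ∀ (B : Type) [Group B] (b0 b1 : B), b0 ≠ 1 → b1 ≠ 1 → b0 ≠ b1 →
  ∃ (V : Type) (_ : MulAction (Gam B) V) (F : LF (Gam B) V),
    F.K = 20 ∧ (∀ x ∈ F.fam, x.2 = 280) ∧
    (∀ g : Gam B, g • F.v0 = F.v0 ↔ ∃ b : B, g = Monoid.Coprod.inl b) ∧
    F.T.d F.v0 (ww B • F.v0) ≤ 2 ∧
    (∀ x ∈ F.fam, ∀ g : Gam B, ¬ ∀ k, g • x.1 k = x.1 (-k)) ∧
    (∀ x ∈ F.fam, ∃ τ : Gam B, ∀ k, τ • x.1 k = x.1 (k + x.2)) ∧
    F.N = Subgroup.normalClosure (tors b0 b1)

end Pool.Agent.H346.QC
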