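import Pool.Agent.H346.SC.Hyp
import Pool.Agent.H346.QC.Chk

set_option autoImplicit false

/-!
# The small cancellation system
-/

namespace Pool.Agent.H346.QC

open Pool.Agent.H17R2 FreeGroup Pool.Agent.H346.SC Pool.Agent.H346.NL

lemma bitsAux_length (k n : ℕ) : (bitsAux k n).length = k := by
  induction k generalizing n with
  | zero => rfl
  | succ k ih => simp [bitsAux, ih]

lemma bw_length (n k : ℕ) : (bw n k).length = n := by simp [bw, bitsAux_length]

lemma root_length (r : Rl) (hr : r ≠ .c) : ex r * (root r).length = 280 := by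
  cases r <;> simp [root, ex, PD.iv_length, uw, vw, bw_length] at hr ⊢

lemma root_ne (r : Rl) : root r ≠ [] := by cases r <;> simp [root]

lemma mem_nms (r : Rl) : r ∈ nms := by
  cases r with
  | r1 i s j => fin_cases i <;> cases s <;> cases j <;> decide
  | r2 i => fin_cases i <;> decide
  | t0 j => cases j <;> decide
  | t1 => decide
  | t2 => decide
  | t3 j => cases j <;> decide
  | c => decide

lemma ncp_spec (r : Rl) : (root r).length + 13 ≤ ncp r * (root r).length := by
  cases r <;> simp [root, ncp, PD.iv_length, uw, vw, bw_length]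

lemma dgl_lt (x : Lt × Bool) : dgl x < 16 := by
  rcases x with ⟨x, s⟩
  cases x with
  | x i => have := i.isLt; cases s <;> simp [dgl] <;> omega
  | b j => cases j <;> cases s <;> simp [dgl]
  | w => cases s <;> simp [dgl]

theorem pd_chk : pd.Chk where
  all := mem_nms
  ne := root_ne
  nc := ncp_spec
  dg := dgl_lt
  bld := bld_chk

/-- check of reducedness -/
def fred (x y : Lt × Bool) : Bool := decide (x.1 = y.1 → x.2 = y.2)

lemma red_chk : ∀ p ∈ pd.allO, all2 fred (pd.ort p ++ pd.ort p) = true := by decide +kernel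

lemma wl_red (p : Rl × Bool) (k : ℤ) : pd.wl p (k + 1) ≠ inv2 (pd.wl p k) := by
  have hne : pd.ort p ≠ [] := by
    intro h
    have h1 := pd.ort_length p
    rw [h] at h1
    exact root_ne p.1 (List.length_eq_zero_iff.1 h1.symm)
  have h := all2_pe pd.x0 fred (pd.ort p) hne (red_chk p (pd.mem_allO pd_chk p)) k
  intro hcon
  have h1 : (pd.wl p k).1 = (pd.wl p (k + 1)).1 → (pd.wl p k).2 = (pd.wl p (k + 1)).2 :=
    of_decide_eq_true h
  rw [hcon] at h1
  have := h1 rfl
  simp [inv2] at this

lemma wl_280 (r : Rl) (hr : r ≠ .c) (ε : Bool) (k : ℤ) : pd.wl (r, ε) (k + 280) = pd.wl (r, ε) k := by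
  have h := pd.wl_add_mul (r, ε) k (ex r)
  have h2 : ((ex r : ℤ)) * ((pd.rt (r, ε).1).length : ℤ) = 280 := by
    exact_mod_cast root_length r hr
  rw [h2] at h
  exact h

/-- the small cancellation system -/
def sys : Words Lt where
  B := {b | ∃ r, r ≠ .c ∧ b = (pd.wl (r, true), 280)}
  K := 20
  hK := le_rfl
  per := by
    rintro _ ⟨r, hr, rfl⟩ k
    exact wl_280 r hr true k
  red := by
    rintro _ ⟨r, hr, rfl⟩ k
    exact wl_red _ _
  KL := by
    rintro _ ⟨r, hr, rfl⟩
    norm_num
  sc := by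
    rintro _ ⟨r, hr, rfl⟩ _ ⟨r', hr', rfl⟩ s s' ε ε' t h ht
    have ht' : 14 ≤ t := by
      rcases ht with ht | ht <;> simp only at ht <;> omega
    simp only [pd.lab_eq pd_chk] at h ⊢
    obtain ⟨h1, h2⟩ := pd.window_inj pd_chk (r, ε) (r', ε') (sg ε * s) (sg ε' * s')
      (fun k hk => h k (by omega))
    refine ⟨fun k => ?_, trivial⟩
    rw [← h1]
    apply pd.wl_congr
    rw [← Int.emod_add_emod, h2, Int.emod_add_emod]

lemma zw_rel (r : Rl) (hr : r ≠ .c) : zw (pd.wl (r, true)) 280 = FreeGroup.mk (root r) ^ ex r := by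
  have h := zw_pe_pow pd.x0 (root r) (ex r)
  rw [root_length r hr] at h
  exact h

lemma rel_sys : sys.rel = {g | ∃ r, r ≠ .c ∧ g = FreeGroup.mk (root r) ^ ex r} := by
  apply Set.eq_of_subset_of_subset
  · intro g hg
    obtain ⟨b, hb, hgb⟩ := hg
    obtain ⟨r, hr0, hr⟩ := hb
    subst hr
    exact ⟨r, hr0, hgb.trans (zw_rel r hr0)⟩
  · intro g hg
    obtain ⟨r, hr0, hr⟩ := hg
    have h2 : (pd.wl (r, true), (280 : ℤ)) ∈ sys.B := ⟨r, hr0, rfl⟩
    have h3 : g = zw (pd.wl (r, true), (280 : ℤ)).1 (pd.wl (r, true), (280 : ℤ)).2 :=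
      hr.trans (zw_rel r hr0).symm
    exact ⟨_, h2, h3⟩

lemma N_sys : sys.toFam.N =
    Subgroup.normalClosure {g | ∃ r, r ≠ .c ∧ g = FreeGroup.mk (root r) ^ ex r} := by
  rw [Words.N_eq, rel_sys]

/-- the group -/
abbrev GG : Type := Gp sys

/-- the generators -/
abbrev ge (x : Lt) : GG := gen sys x

lemma closure_ge : Subgroup.closure (Set.range ge) = ⊤ := gen_closure sys

theorem hyp : Pool.Agent.H322R3.Hyp.IsHyperbolic (Set.range ge) := by
  refine gp_hyp (S := sys) (C := 280) ?_
  rintro _ ⟨r, hr, rfl⟩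
  norm_num

lemma range_ge_finite : (Set.range ge).Finite := by
  have : Finite Lt := by
    have hfin : Set.Finite (Set.univ : Set Lt) := by
      have h : (Set.univ : Set Lt) ⊆ Set.range Lt.x ∪ Set.range Lt.b ∪ {Lt.w} := by
        intro x _
        cases x with
        | x i => exact Or.inl (Or.inl ⟨i, rfl⟩)
        | b i => exact Or.inl (Or.inr ⟨i, rfl⟩)
        | w => exact Or.inr rfl
      exact (((Set.finite_range _).union (Set.finite_range _)).union (Set.finite_singleton _)).subset h
    exact Set.finite_univ_iff.1 hfin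
  exact Set.finite_range _

end Pool.Agent.H346.QC
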