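import Pool.Agent.H346.NL.Per
import Pool.Graph.R_seed8.H17R2.TorsionFree

set_option autoImplicit false

/-!
# Explicit small cancellation presentations

A presentation is given by the list of its relators, which are powers of given root words. The
check `bld` verifies by computation that all the windows of length `14` of the periodic words of the
roots and of their inverses are different.
-/

namespace Pool.Agent.H346.QC

open Pool.Agent.H17R2 FreeGroup Pool.Agent.H346.NL

/-- inverse of a word -/
def iv {α : Type} (l : List (α × Bool)) : List (α × Bool) := (l.map (fun x => (x.1, !x.2))).reverse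

/-- the code of a word, four bits for each letter -/
def code4 : List ℕ → ℕ
  | [] => 0
  | x :: l => x + 16 * code4 l

/-- the codes of the windows of length 14 starting at the positions `n - 1, …, 0` -/
def wins4 (P : ℕ) : ℕ → List ℕ
  | 0 => []
  | n + 1 => Nat.mod (Nat.shiftRight P (Nat.mul 4 n)) 72057594037927936 :: wins4 P n

/-- insertion of all the windows of all the words in the list (code, number of windows) -/
def bld4 : List (ℕ × ℕ) → Tr → Bool
  | [], _ => true
  | (0, _) :: _, _ => false
  | (P + 1, n) :: l, t => match build (wins4 (Nat.succ P) n) t with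
      | none => false
      | some t' => bld4 l t'

/-- concatenation of `n` copies -/
def rep {β : Type} (l : List β) : ℕ → List β
  | 0 => []
  | n + 1 => l ++ rep l n

/-- check of all the pairs of consecutive letters -/
def all2 {β : Type} (f : β → β → Bool) : List β → Bool
  | x :: y :: l => f x y && all2 f (y :: l)
  | _ => true

section spec

lemma bld4_spec {ι : Type} (f : ι → ℕ × ℕ) : ∀ (ps : List ι) (t : Tr), t.Bst →
    bld4 (ps.map f) t = true →
    (ps.flatMap fun p => wins4 (f p).1 (f p).2).Nodup ∧
      ∀ k ∈ ps.flatMap (fun p => wins4 (f p).1 (f p).2), ¬ Tr.Mem k t := by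
  intro ps
  induction ps with
  | nil => intro t _ _; simp
  | cons p ps ih =>
    intro t ht h
    rw [List.map_cons] at h
    rcases hfp : f p with ⟨P, n⟩
    rw [hfp] at h
    cases P with
    | zero => unfold bld4 at h; simp at h
    | succ P =>
      unfold bld4 at h
      split at h
      · simp at h
      · rename_i t' h'
        obtain ⟨c1, c2, c3, c4⟩ := build_spec _ _ _ ht h'
        obtain ⟨d1, d2⟩ := ih _ c1 h
        rw [List.flatMap_cons, hfp]
        constructor
        · rw [List.nodup_append']
          refine ⟨c2, d1, ?_⟩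
          intro x hx hx'
          exact d2 x hx' ((c4 x).2 (Or.inl hx))
        · intro k hk
          rcases List.mem_append.1 hk with hk | hk
          · exact c3 k hk
          · intro hmem
            exact d2 k hk ((c4 k).2 (Or.inr hmem))

/-- the key of a window -/
def key4 (P n : ℕ) : ℕ := (P >>> (4 * n)) % 72057594037927936

lemma wins4_succ (P n : ℕ) : wins4 P (n + 1) = key4 P n :: wins4 P n := rfl

lemma mem_wins4 (P n s : ℕ) (h : s < n) : key4 P s ∈ wins4 P n := by
  induction n with
  | zero => omega
  | succ n ih =>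
    rw [wins4_succ]
    rcases Nat.lt_succ_iff_lt_or_eq.1 h with h | h
    · exact List.mem_cons_of_mem _ (ih h)
    · rw [h]; exact List.mem_cons_self

lemma wins4_inj (P n : ℕ) (h : (wins4 P n).Nodup) (s s' : ℕ) (hs : s < n) (hs' : s' < n)
    (he : key4 P s = key4 P s') : s = s' := by
  induction n with
  | zero => omega
  | succ n ih =>
    rw [wins4_succ, List.nodup_cons] at h
    rcases Nat.lt_succ_iff_lt_or_eq.1 hs with h1 | h1 <;>
    rcases Nat.lt_succ_iff_lt_or_eq.1 hs' with h2 | h2
    · exact ih h.2 h1 h2
    · have h3 := mem_wins4 P n s h1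
      rw [he, h2] at h3
      exact absurd h3 h.1
    · have h3 := mem_wins4 P n s' h2
      rw [← he, h1] at h3
      exact absurd h3 h.1
    · omega

lemma key4_inj {ι : Type} (f : ι → ℕ × ℕ) (ps : List ι) (h : bld4 (ps.map f) .lf = true)
    (p p' : ι) (hp : p ∈ ps) (hp' : p' ∈ ps)
    (s s' : ℕ) (hs : s < (f p).2) (hs' : s' < (f p').2) (he : key4 (f p).1 s = key4 (f p').1 s') :
    p = p' ∧ s = s' := by
  obtain ⟨h1, -⟩ := bld4_spec f ps .lf trivial h
  rw [List.nodup_flatMap] at h1
  obtain ⟨h2, h3⟩ := h1
  have hpp : p = p' := by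
    by_contra hne
    have : Std.Symm (Function.onFun List.Disjoint fun p => wins4 (f p).1 (f p).2) :=
      ⟨fun _ _ h => List.Disjoint.symm h⟩
    have h4 := h3.forall hp hp' hne
    exact h4 (mem_wins4 _ _ _ hs) (by rw [he]; exact mem_wins4 _ _ _ hs')
  subst hpp
  exact ⟨rfl, wins4_inj _ _ (h2 p hp) s s' hs hs' he⟩

lemma code4_cons (x : ℕ) (l : List ℕ) : code4 (x :: l) = x + 16 * code4 l := rfl

lemma code4_drop (l : List ℕ) (hl : ∀ x ∈ l, x < 16) (n : ℕ) :
    code4 l >>> (4 * n) = code4 (l.drop n) := by
  rw [Nat.shiftRight_eq_div_pow]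
  induction n generalizing l with
  | zero => simp
  | succ n ih =>
    cases l with
    | nil => simp [code4]
    | cons x l =>
      rw [List.drop_succ_cons, ← ih l (fun y hy => hl y (List.mem_cons_of_mem _ hy))]
      have hx := hl x List.mem_cons_self
      have e : 2 ^ (4 * (n + 1)) = 16 * 2 ^ (4 * n) := by
        rw [mul_add, pow_add]; norm_num; ring
      rw [e, ← Nat.div_div_eq_div_mul]
      congr 1
      rw [code4_cons]
      omega

lemma code4_take (l : List ℕ) (hl : ∀ x ∈ l, x < 16) (n : ℕ) :
    code4 l % 16 ^ n = code4 (l.take n) := by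
  induction n generalizing l with
  | zero => simp [code4, Nat.mod_one]
  | succ n ih =>
    cases l with
    | nil => simp [code4]
    | cons x l =>
      rw [List.take_succ_cons]
      have hx := hl x List.mem_cons_self
      have h1 := ih l (fun y hy => hl y (List.mem_cons_of_mem _ hy))
      rw [code4_cons, code4_cons, ← h1]
      have h2 := Nat.mod_add_div (code4 l) (16 ^ n)
      have h3 : 0 < 16 ^ n := by positivity
      have h4 := Nat.mod_lt (code4 l) h3
      have e : x + 16 * code4 l = x + 16 * (code4 l % 16 ^ n) + 16 ^ (n + 1) * (code4 l / 16 ^ n) := by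
        conv_lhs => rw [← h2]
        ring
      rw [e, Nat.add_mul_mod_self_left]
      apply Nat.mod_eq_of_lt
      rw [pow_succ]
      omega

end spec

section per

variable {β : Type} (x0 : β)

lemma rep_length (l : List β) (n : ℕ) : (rep l n).length = n * l.length := by
  induction n with
  | zero => simp [rep]
  | succ n ih => rw [rep, List.length_append, ih]; ring

lemma pe_rep (l : List β) (n : ℕ) : ∀ k : ℕ, k < n * l.length →
    (rep l n).getD k x0 = pe x0 l k := by
  induction n with
  | zero => intro k hk; simp at hk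
  | succ n ih =>
    intro k hk
    rw [rep]
    rcases lt_or_ge k l.length with h | h
    · rw [List.getD_append _ _ _ _ h]
      unfold pe
      rw [Int.emod_eq_of_lt (by omega) (by omega), Int.toNat_natCast]
    · rw [List.getD_append_right _ _ _ _ h, ih (k - l.length) (by
        have : (n + 1) * l.length = n * l.length + l.length := by ring
        omega)]
      apply pe_congr
      rw [show (k : ℤ) = ((k - l.length : ℕ) : ℤ) + l.length by omega, Int.add_emod_right]

lemma pe_default' (x y : β) (l : List β) (hl : l ≠ []) (k : ℤ) : pe x l k = pe y l k := by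
  have hpos : (0 : ℤ) < l.length := by
    have := List.length_pos_of_ne_nil hl
    omega
  have h1 := Int.emod_nonneg k hpos.ne'
  have h2 := Int.emod_lt_of_pos k hpos
  unfold pe
  rw [List.getD_eq_getElem _ _ (by omega), List.getD_eq_getElem _ _ (by omega)]

lemma all2_spec (f : β → β → Bool) (L : List β) (h : all2 f L = true) (j : ℕ)
    (hj : j + 1 < L.length) : f (L.getD j x0) (L.getD (j + 1) x0) = true := by
  induction L generalizing j with
  | nil => simp at hj
  | cons x L ih =>
    match L, ih, h, hj with
    | [], _, _, hj => simp at hj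
    | y :: l, ih, h, hj =>
      unfold all2 at h
      rw [Bool.and_eq_true] at h
      cases j with
      | zero => exact h.1
      | succ j =>
        have := ih h.2 j (by simp at hj ⊢; omega)
        exact this

lemma all2_pe (f : β → β → Bool) (l : List β) (hl : l ≠ [])
    (h : all2 f (l ++ l) = true) (k : ℤ) : f (pe x0 l k) (pe x0 l (k + 1)) = true := by
  have hl' := List.length_pos_of_ne_nil hl
  have hpos : (0 : ℤ) < l.length := by omega
  have h1 := Int.emod_nonneg k hpos.ne'
  have h2 := Int.emod_lt_of_pos k hpos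
  obtain ⟨j, hj⟩ := Int.eq_ofNat_of_zero_le h1
  have h3 := all2_spec x0 f (l ++ l) h j (by rw [List.length_append]; omega)
  rw [← pe_nat x0 l j (by omega), ← pe_nat x0 l (j + 1) (by omega)] at h3
  have e : ∀ i : ℕ, pe x0 l (k + i) = pe x0 l ((j + i : ℕ) : ℤ) := by
    intro i
    apply pe_congr
    push_cast
    rw [← hj, Int.emod_add_emod]
  have e0 := e 0
  have e1 := e 1
  simp only [Nat.cast_zero, add_zero, Nat.cast_one] at e0 e1
  rw [e0, e1]
  exact h3

end per

section pres

/-- the data of an explicit presentation -/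
structure PD (α R : Type) where
  /-- a default letter -/
  x0 : α × Bool
  /-- roots -/
  rt : R → List (α × Bool)
  /-- numbers of copies used in the check -/
  nc : R → ℕ
  /-- codes of letters -/
  dg : α × Bool → ℕ
  /-- the list of the names -/
  names : List R

variable {α R : Type} (D : PD α R)

namespace PD

/-- oriented roots -/
def ort (p : R × Bool) : List (α × Bool) := cond p.2 (D.rt p.1) (iv (D.rt p.1))

/-- the code of a repeated oriented root -/
def pk (p : R × Bool) : ℕ := code4 ((rep (D.ort p) (D.nc p.1)).map D.dg)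

/-- the code and the number of windows -/
def pkn (p : R × Bool) : ℕ × ℕ := (D.pk p, (D.rt p.1).length)

/-- all the oriented names -/
def allO : List (R × Bool) := D.names.flatMap fun r => [(r, false), (r, true)]

/-- the check -/
structure Chk : Prop where
  all : ∀ r, r ∈ D.names
  ne : ∀ r, D.rt r ≠ []
  nc : ∀ r, (D.rt r).length + 13 ≤ D.nc r * (D.rt r).length
  dg : ∀ x, D.dg x < 16
  bld : bld4 (D.allO.map D.pkn) .lf = true

/-- the biinfinite word of an oriented root -/
def wl (p : R × Bool) : ℤ → α × Bool := pe D.x0 (D.ort p)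

lemma iv_length (l : List (α × Bool)) : (iv l).length = l.length := by simp [iv]

lemma iv_ne {l : List (α × Bool)} (h : l ≠ []) : iv l ≠ [] := by
  intro h1
  have := iv_length l
  rw [h1] at this
  exact h (List.length_eq_zero_iff.1 this.symm)

lemma ort_length (p : R × Bool) : (D.ort p).length = (D.rt p.1).length := by
  rcases p with ⟨r, b⟩
  cases b
  · exact iv_length _
  · rfl

lemma pe_iv (l : List (α × Bool)) (hl : l ≠ []) (m : ℤ) :
    pe D.x0 (iv l) m = inv2 (pe D.x0 l (-m - 1)) := by
  unfold iv
  rw [pe_reverse D.x0 _ (by simpa using hl)]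
  have h : (l.map fun x => (x.1, !x.2)) ≠ [] := by simpa using hl
  rw [pe_default' D.x0 ((fun x : α × Bool => (x.1, !x.2)) D.x0) _ h,
    pe_map D.x0 (fun x : α × Bool => (x.1, !x.2)) l]
  rfl

variable (hD : D.Chk)

lemma mem_allO (hD : D.Chk) (p : R × Bool) : p ∈ D.allO := by
  rcases p with ⟨r, b⟩
  unfold allO
  rw [List.mem_flatMap]
  refine ⟨r, hD.all r, ?_⟩
  cases b <;> simp

lemma wl_add (p : R × Bool) (k : ℤ) : D.wl p (k + (D.rt p.1).length) = D.wl p k := by
  have := pe_add D.x0 (D.ort p) k
  rw [ort_length] at this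
  exact this

lemma wl_add_mul (p : R × Bool) (k m : ℤ) : D.wl p (k + m * (D.rt p.1).length) = D.wl p k := by
  unfold wl
  apply pe_congr
  rw [ort_length, Int.add_mul_emod_self_right]

lemma wl_congr (p : R × Bool) {k k' : ℤ} (h : k % (D.rt p.1).length = k' % (D.rt p.1).length) :
    D.wl p k = D.wl p k' := by
  apply pe_congr
  rw [ort_length]; exact h

include hD

lemma lab_eq (r : R) (s : ℤ) (ε : Bool) (k : ℤ) :
    lab (D.wl (r, true)) s ε k = D.wl (r, ε) (sg ε * s + k) := by
  cases ε
  · show inv2 (pe D.x0 (D.rt r) (s - k - 1)) = pe D.x0 (iv (D.rt r)) (-1 * s + k)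
    rw [D.pe_iv _ (hD.ne r)]
    congr 2
    ring
  · show pe D.x0 (D.rt r) (s + k) = pe D.x0 (D.rt r) (1 * s + k)
    rw [one_mul]

lemma key_eq (p : R × Bool) (s : ℕ) :
    key4 (D.pk p) s = code4 ((((rep (D.ort p) (D.nc p.1)).drop s).take 14).map D.dg) := by
  have h1 : ∀ x ∈ (rep (D.ort p) (D.nc p.1)).map D.dg, x < 16 := by
    intro x hx
    rw [List.mem_map] at hx
    obtain ⟨y, -, rfl⟩ := hx
    exact hD.dg y
  unfold key4 pk
  rw [code4_drop _ h1, show (72057594037927936 : ℕ) = 16 ^ 14 by norm_num, code4_take]
  · rw [List.map_take, List.map_drop]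
  · intro x hx
    exact h1 x (List.mem_of_mem_drop hx)

lemma window (p : R × Bool) (s : ℕ) (hs : s < (D.rt p.1).length) :
    ((rep (D.ort p) (D.nc p.1)).drop s).take 14 =
      (List.range 14).map fun i => D.wl p ((s + i : ℕ) : ℤ) := by
  have hlen : (rep (D.ort p) (D.nc p.1)).length = D.nc p.1 * (D.rt p.1).length := by
    rw [rep_length, ort_length]
  have hnc := hD.nc p.1
  apply List.ext_getElem
  · rw [List.length_take, List.length_drop, hlen]
    simp; omega
  · intro i h1 h2
    have hi : i < 14 := by simpa using h2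
    rw [List.getElem_take, List.getElem_drop, List.getElem_map, List.getElem_range]
    have e := pe_rep D.x0 (D.ort p) (D.nc p.1) (s + i) (by rw [ort_length]; omega)
    show _ = pe D.x0 (D.ort p) _
    rw [← e, List.getD_eq_getElem _ _ (by rw [hlen]; omega)]

/-- a window of length 14 determines the oriented root and the position -/
theorem window_inj (p p' : R × Bool) (m m' : ℤ)
    (h : ∀ k : ℕ, k < 14 → D.wl p (m + k) = D.wl p' (m' + k)) :
    p = p' ∧ m % (D.rt p.1).length = m' % (D.rt p.1).length := by
  have hl := List.length_pos_of_ne_nil (hD.ne p.1)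
  have hl' := List.length_pos_of_ne_nil (hD.ne p'.1)
  have h1 := Int.emod_nonneg m (by omega : ((D.rt p.1).length : ℤ) ≠ 0)
  have h2 := Int.emod_lt_of_pos m (by omega : (0 : ℤ) < (D.rt p.1).length)
  have h1' := Int.emod_nonneg m' (by omega : ((D.rt p'.1).length : ℤ) ≠ 0)
  have h2' := Int.emod_lt_of_pos m' (by omega : (0 : ℤ) < (D.rt p'.1).length)
  obtain ⟨s, hs⟩ := Int.eq_ofNat_of_zero_le h1
  obtain ⟨s', hs'⟩ := Int.eq_ofNat_of_zero_le h1'
  have hk : key4 (D.pk p) s = key4 (D.pk p') s' := by
    rw [D.key_eq hD, D.key_eq hD, D.window hD p s (by omega), D.window hD p' s' (by omega)]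
    congr 2
    apply List.map_congr_left
    intro i hi
    rw [List.mem_range] at hi
    have h3 := h i hi
    have e1 : D.wl p (m + i) = D.wl p ((s + i : ℕ) : ℤ) := by
      apply wl_congr
      push_cast
      rw [← hs, Int.emod_add_emod]
    have e2 : D.wl p' (m' + i) = D.wl p' ((s' + i : ℕ) : ℤ) := by
      apply wl_congr
      push_cast
      rw [← hs', Int.emod_add_emod]
    rw [← e1, ← e2, h3]
  obtain ⟨h3, h4⟩ := key4_inj D.pkn D.allO hD.bld p p' (D.mem_allO hD p) (D.mem_allO hD p') s s'
    (by show s < (D.rt p.1).length; omega) (by show s' < (D.rt p'.1).length; omega) hk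
  refine ⟨h3, ?_⟩
  subst h3
  rw [hs, hs', h4]

end PD

section zw

variable {α : Type} (x0 : α × Bool)

lemma range_pe (l : List (α × Bool)) :
    (List.range l.length).map (fun i : ℕ => pe x0 l i) = l := by
  apply List.ext_getElem
  · rw [List.length_map, List.length_range]
  · intro i h1 h2
    rw [List.getElem_map, List.getElem_range, pe_nat x0 l i (by omega),
      List.getD_append _ _ _ _ h2, List.getD_eq_getElem _ _ h2]

lemma zw_pe (l : List (α × Bool)) : zw (pe x0 l) l.length = FreeGroup.mk l := by
  have h := zw_nat (pe x0 l) l.length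
  rw [range_pe] at h
  exact h

lemma zw_pe_pow (l : List (α × Bool)) (n : ℕ) :
    zw (pe x0 l) (n * l.length : ℕ) = FreeGroup.mk l ^ n := by
  have h := zp_mul_period (fun k => FreeGroup.mk [pe x0 l k]) l.length
    (fun k => by simp only [pe_add]) n 0
  rw [zero_add] at h
  have h2 : zw (pe x0 l) ((n : ℤ) * l.length) = zw (pe x0 l) l.length ^ (n : ℤ) * 1 := h
  rw [Nat.cast_mul, h2, zw_pe, mul_one, zpow_natCast]

end zw

end pres

end Pool.Agent.H346.QC
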